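import Pool.Agent.Helper10.RC.Basic

/-!
# Estimates of weighted polynomials at points near a direction
-/

set_option autoImplicit false

namespace Pool.Agent.Helper74.RC

open Pool.Agent.Helper10.RC MvPolynomial

lemma mono_const {w C C' r X : ℝ} (hC : 0 ≤ C) (h : C ≤ C') (hr : 0 ≤ r) (hX : 0 ≤ X) :
    C * Real.exp ((w + C * r) * X) ≤ C' * Real.exp ((w + C' * r) * X) := by
  have h1 : Real.exp ((w + C * r) * X) ≤ Real.exp ((w + C' * r) * X) := by
    apply Real.exp_le_exp.mpr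
    apply mul_le_mul_of_nonneg_right _ hX
    have := mul_le_mul_of_nonneg_right h hr
    linarith
  exact mul_le_mul h h1 (Real.exp_pos _).le (hC.trans h)

lemma abv_mon_le {K : Type} [Field K] {n : ℕ} (a : AbsoluteValue K ℝ) (θ : Fin n → ℝ)
    (t : Fin n → K) (r X : ℝ) (hN : Near a θ r X t)
    (α : Fin n →₀ ℕ) :
    a (∏ j, t j ^ α j) ≤ Real.exp ((∑ j, θ j * α j + (∑ j, (α j : ℝ)) * r) * X) := by
  rw [map_prod]
  have h1 : ∀ j, a (t j ^ α j) ≤ Real.exp ((θ j * α j + α j * r) * X) := by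
    intro j
    obtain ⟨h0, h2⟩ := hN j
    have hpos : 0 < a (t j) := a.pos h0
    have h3 : Real.log (a (t j)) ≤ X * θ j + r * X := by
      have := (abs_le.mp h2).2
      linarith
    have h4 : a (t j) ≤ Real.exp (X * θ j + r * X) := by
      rw [← Real.exp_log hpos]
      exact Real.exp_le_exp.mpr h3
    rw [map_pow]
    calc a (t j) ^ α j ≤ Real.exp (X * θ j + r * X) ^ α j := pow_le_pow_left₀ hpos.le h4 _
      _ = Real.exp ((θ j * α j + α j * r) * X) := by
        rw [← Real.exp_nat_mul]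
        congr 1
        ring
  calc ∏ j, a (t j ^ α j) ≤ ∏ j, Real.exp ((θ j * α j + α j * r) * X) :=
        Finset.prod_le_prod (fun j _ => a.nonneg _) (fun j _ => h1 j)
    _ = Real.exp ((∑ j, θ j * α j + (∑ j, (α j : ℝ)) * r) * X) := by
      rw [← Real.exp_sum]
      congr 1
      rw [Finset.sum_mul, add_mul, Finset.sum_mul, Finset.sum_mul, ← Finset.sum_add_distrib]
      apply Finset.sum_congr rfl
      intro j _
      ring

lemma evh_eq {K : Type} [Field K] {n : ℕ} (t : Fin n → K) (y : K) (H : Pl K n) :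
    evh t y H = ∑ k ∈ H.support, ∑ α ∈ (H.coeff k).support,
      coeff α (H.coeff k) * (∏ j, t j ^ α j) * y ^ k := by
  rw [evh, Polynomial.coe_eval₂RingHom, Polynomial.eval₂_eq_sum, Polynomial.sum]
  apply Finset.sum_congr rfl
  intro k _
  rw [MvPolynomial.eval_eq', Finset.sum_mul]

theorem ev_le {K : Type} [Field K] {n : ℕ} (a : AbsoluteValue K ℝ) (θ : Fin n → ℝ) (h w : ℝ)
    (H : Pl K n) (hle : LeW θ h w H) (C₁ : ℝ) (hC₁ : 1 ≤ C₁) :
    ∃ C : ℝ, 1 ≤ C ∧ ∀ (t : Fin n → K) (y : K) (r X : ℝ), 1 ≤ X → 0 ≤ r → Near a θ r X t →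
      a y ≤ C₁ * Real.exp ((h + C₁ * r) * X) →
      a (evh t y H) ≤ C * Real.exp ((w + C * r) * X) := by
  set S : ℝ := ∑ k ∈ H.support, ∑ α ∈ (H.coeff k).support,
    (a (coeff α (H.coeff k)) * C₁ ^ k + ((∑ j, (α j : ℝ)) + k * C₁)) with hS
  have hterm : ∀ k (α : Fin n →₀ ℕ),
      0 ≤ (a (coeff α (H.coeff k)) * C₁ ^ k + ((∑ j, (α j : ℝ)) + k * C₁)) := by
    intro k α
    have : (0 : ℝ) ≤ C₁ := by linarith
    have h1 : 0 ≤ a (coeff α (H.coeff k)) * C₁ ^ k :=
      mul_nonneg (a.nonneg _) (pow_nonneg this _)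
    have h2 : (0 : ℝ) ≤ ∑ j, (α j : ℝ) := Finset.sum_nonneg (fun j _ => Nat.cast_nonneg _)
    have h3 : (0 : ℝ) ≤ k * C₁ := mul_nonneg (Nat.cast_nonneg _) this
    linarith
  have hS0 : 0 ≤ S := Finset.sum_nonneg fun k _ => Finset.sum_nonneg fun α _ => hterm k α
  refine ⟨1 + S, by linarith, ?_⟩
  intro t y r X hX hr hN hy
  have hX0 : (0 : ℝ) ≤ X := by linarith
  have hC0 : (0 : ℝ) ≤ C₁ := by linarith
  have key : ∀ k ∈ H.support, ∀ α ∈ (H.coeff k).support,
      a (coeff α (H.coeff k) * (∏ j, t j ^ α j) * y ^ k) ≤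
        (a (coeff α (H.coeff k)) * C₁ ^ k) * Real.exp ((w + (1 + S) * r) * X) := by
    intro k hk α hα
    have hSk : (a (coeff α (H.coeff k)) * C₁ ^ k + ((∑ j, (α j : ℝ)) + k * C₁)) ≤ S := by
      refine le_trans ?_ (Finset.single_le_sum
        (f := fun k => ∑ α ∈ (H.coeff k).support,
          (a (coeff α (H.coeff k)) * C₁ ^ k + ((∑ j, (α j : ℝ)) + k * C₁)))
        (fun k _ => Finset.sum_nonneg fun α _ => hterm k α) hk)
      exact Finset.single_le_sum
        (f := fun α : Fin n →₀ ℕ =>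
          (a (coeff α (H.coeff k)) * C₁ ^ k + ((∑ j, (α j : ℝ)) + k * C₁)))
        (fun α _ => hterm k α) hα
    have hSk' : ((∑ j, (α j : ℝ)) + k * C₁) ≤ 1 + S := by
      have : 0 ≤ a (coeff α (H.coeff k)) * C₁ ^ k :=
        mul_nonneg (a.nonneg _) (pow_nonneg hC0 _)
      linarith
    have hw : wt θ h α k ≤ w := hle k α (by simpa using hα)
    rw [map_mul, map_mul, map_pow]
    have h1 := abv_mon_le a θ t r X hN α
    have h2 : a y ^ k ≤ C₁ ^ k * Real.exp ((h * k + k * C₁ * r) * X) := by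
      calc a y ^ k ≤ (C₁ * Real.exp ((h + C₁ * r) * X)) ^ k :=
            pow_le_pow_left₀ (a.nonneg _) hy _
        _ = C₁ ^ k * Real.exp ((h * k + k * C₁ * r) * X) := by
          rw [mul_pow, ← Real.exp_nat_mul]
          congr 2
          ring
    have h3 : Real.exp ((∑ j, θ j * α j + (∑ j, (α j : ℝ)) * r) * X) *
        Real.exp ((h * k + k * C₁ * r) * X) ≤ Real.exp ((w + (1 + S) * r) * X) := by
      rw [← Real.exp_add]
      apply Real.exp_le_exp.mpr
      have h4 : (∑ j, θ j * α j + (∑ j, (α j : ℝ)) * r) * X + (h * k + k * C₁ * r) * X =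
          (wt θ h α k + ((∑ j, (α j : ℝ)) + k * C₁) * r) * X := by
        rw [wt]
        ring
      rw [h4]
      apply mul_le_mul_of_nonneg_right _ hX0
      have := mul_le_mul_of_nonneg_right hSk' hr
      linarith
    calc a (coeff α (H.coeff k)) * a (∏ j, t j ^ α j) * a y ^ k
        ≤ a (coeff α (H.coeff k)) *
            Real.exp ((∑ j, θ j * α j + (∑ j, (α j : ℝ)) * r) * X) *
            (C₁ ^ k * Real.exp ((h * k + k * C₁ * r) * X)) := by
          apply mul_le_mul _ h2 (pow_nonneg (a.nonneg _) _)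
            (mul_nonneg (a.nonneg _) (Real.exp_pos _).le)
          exact mul_le_mul_of_nonneg_left h1 (a.nonneg _)
      _ = (a (coeff α (H.coeff k)) * C₁ ^ k) *
            (Real.exp ((∑ j, θ j * α j + (∑ j, (α j : ℝ)) * r) * X) *
              Real.exp ((h * k + k * C₁ * r) * X)) := by ring
      _ ≤ (a (coeff α (H.coeff k)) * C₁ ^ k) * Real.exp ((w + (1 + S) * r) * X) :=
          mul_le_mul_of_nonneg_left h3 (mul_nonneg (a.nonneg _) (pow_nonneg hC0 _))
  rw [evh_eq]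
  calc a (∑ k ∈ H.support, ∑ α ∈ (H.coeff k).support,
        coeff α (H.coeff k) * (∏ j, t j ^ α j) * y ^ k)
      ≤ ∑ k ∈ H.support, ∑ α ∈ (H.coeff k).support,
        a (coeff α (H.coeff k) * (∏ j, t j ^ α j) * y ^ k) := by
        refine (a.sum_le _ _).trans (Finset.sum_le_sum fun k _ => a.sum_le _ _)
    _ ≤ ∑ k ∈ H.support, ∑ α ∈ (H.coeff k).support,
        (a (coeff α (H.coeff k)) * C₁ ^ k) * Real.exp ((w + (1 + S) * r) * X) :=
        Finset.sum_le_sum fun k hk => Finset.sum_le_sum fun α hα => key k hk α hα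
    _ = (∑ k ∈ H.support, ∑ α ∈ (H.coeff k).support,
        (a (coeff α (H.coeff k)) * C₁ ^ k)) * Real.exp ((w + (1 + S) * r) * X) := by
        rw [Finset.sum_mul]
        apply Finset.sum_congr rfl
        intro k _
        rw [Finset.sum_mul]
    _ ≤ (1 + S) * Real.exp ((w + (1 + S) * r) * X) := by
        apply mul_le_mul_of_nonneg_right _ (Real.exp_pos _).le
        have : (∑ k ∈ H.support, ∑ α ∈ (H.coeff k).support,
            (a (coeff α (H.coeff k)) * C₁ ^ k)) ≤ S := by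
          rw [hS]
          apply Finset.sum_le_sum
          intro k _
          apply Finset.sum_le_sum
          intro α _
          have h2 : (0 : ℝ) ≤ ∑ j, (α j : ℝ) :=
            Finset.sum_nonneg (fun j _ => Nat.cast_nonneg _)
          have h3 : (0 : ℝ) ≤ k * C₁ := mul_nonneg (Nat.cast_nonneg _) hC0
          linarith
        linarith

lemma lew_C {K : Type} [Field K] {n : ℕ} {θ : Fin n → ℝ} {h w : ℝ} {P : Pl K n}
    (hle : LeW θ h w P) (k : ℕ) : LeW θ h (w - h * k) (Polynomial.C (P.coeff k)) := by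
  intro k' α hα
  rw [Polynomial.coeff_C] at hα
  split_ifs at hα with hk'
  · subst hk'
    have := hle k α hα
    rw [wt] at this ⊢
    simp only [Nat.cast_zero, mul_zero, add_zero]
    linarith
  · simp at hα

theorem root_le {K : Type} [Field K] {n : ℕ} (a : AbsoluteValue K ℝ) (θ : Fin n → ℝ) (h : ℝ)
    (P : Pl K n) (hP : P.Monic) (hle : LeW θ h (h * P.natDegree) P) :
    ∃ C : ℝ, 1 ≤ C ∧ ∀ (t : Fin n → K) (y : K) (r X : ℝ), 1 ≤ X → 0 ≤ r → Near a θ r X t →
      evh t y P = 0 → a y ≤ C * Real.exp ((h + C * r) * X) := by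
  set δ := P.natDegree with hδ
  choose Ck hCk1 hCk using fun k : ℕ =>
    ev_le a θ h _ (Polynomial.C (P.coeff k)) (lew_C hle k) 1 le_rfl
  set D : ℝ := 1 + ∑ k ∈ Finset.range δ, Ck k with hD
  have hsum0 : 0 ≤ ∑ k ∈ Finset.range δ, Ck k :=
    Finset.sum_nonneg fun k _ => by linarith [hCk1 k]
  have hD1 : 1 ≤ D := by linarith
  have hD0 : 0 < D := by linarith
  have hCD : ∀ k < δ, Ck k ≤ D := by
    intro k hk
    have := Finset.single_le_sum (f := Ck) (s := Finset.range δ)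
      (fun k _ => by linarith [hCk1 k]) (Finset.mem_range.mpr hk)
    linarith
  have hδ0 : (0 : ℝ) ≤ δ := Nat.cast_nonneg _
  set C : ℝ := (δ + 1) * D with hC
  have hDC : D ≤ C := by
    rw [hC]; nlinarith
  have hC1 : 1 ≤ C := hD1.trans hDC
  have hC0 : 0 < C := by linarith
  refine ⟨C, hC1, ?_⟩
  intro t y r X hX hr hN hroot
  by_contra hlt
  rw [not_le] at hlt
  have hX0 : (0 : ℝ) ≤ X := by linarith
  set M : ℝ := C * Real.exp ((h + C * r) * X) with hM
  have hMpos : 0 < M := mul_pos hC0 (Real.exp_pos _)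
  have hypos : 0 < a y := hMpos.trans hlt
  have hcoef : ∀ k < δ, a (eval t (P.coeff k)) ≤
      D * Real.exp ((h * δ - h * k + D * r) * X) := by
    intro k hk
    have h1 := hCk k t 0 r X hX hr hN (by
      rw [map_zero]
      positivity)
    have h2 : evh t 0 (Polynomial.C (P.coeff k)) = eval t (P.coeff k) := by
      rw [evh, Polynomial.coe_eval₂RingHom, Polynomial.eval₂_C]
    rw [h2] at h1
    exact h1.trans (mono_const (by linarith [hCk1 k]) (hCD k hk) hr hX0)
  have hterm : ∀ k < δ, a (eval t (P.coeff k) * y ^ k) ≤ D / C * a y ^ δ := by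
    intro k hk
    rw [map_mul, map_pow]
    have hk1 : 1 ≤ δ - k := by omega
    have h1 : D * Real.exp ((h * δ - h * k + D * r) * X) ≤ D / C * a y ^ (δ - k) := by
      have h2 : M ^ (δ - k) ≤ a y ^ (δ - k) := pow_le_pow_left₀ hMpos.le hlt.le _
      have h3 : C * Real.exp ((h * δ - h * k + D * r) * X) ≤ M ^ (δ - k) := by
        rw [hM, mul_pow, ← Real.exp_nat_mul]
        have h4 : C ≤ C ^ (δ - k) := by
          calc C = C ^ 1 := (pow_one _).symm
            _ ≤ C ^ (δ - k) := pow_le_pow_right₀ hC1 hk1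
        have h5 : (h * δ - h * k + D * r) * X ≤ ((δ - k : ℕ) : ℝ) * ((h + C * r) * X) := by
          rw [Nat.cast_sub hk.le]
          have h6 : (1 : ℝ) ≤ (δ : ℝ) - k := by
            have : ((δ - k : ℕ) : ℝ) = (δ : ℝ) - k := Nat.cast_sub hk.le
            rw [← this]
            exact_mod_cast hk1
          have h7 : D * r ≤ ((δ : ℝ) - k) * (C * r) := by
            have h8 : D * r ≤ C * r := mul_le_mul_of_nonneg_right hDC hr
            have h9 : 0 ≤ C * r := mul_nonneg hC0.le hr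
            nlinarith
          have : (h * δ - h * k + D * r) ≤ ((δ : ℝ) - k) * (h + C * r) := by nlinarith
          calc (h * δ - h * k + D * r) * X ≤ (((δ : ℝ) - k) * (h + C * r)) * X :=
                mul_le_mul_of_nonneg_right this hX0
            _ = ((δ : ℝ) - k) * ((h + C * r) * X) := by ring
        exact mul_le_mul h4 (Real.exp_le_exp.mpr h5) (Real.exp_pos _).le (by positivity)
      have h4 := h3.trans h2
      calc D * Real.exp ((h * δ - h * k + D * r) * X)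
          = D / C * (C * Real.exp ((h * δ - h * k + D * r) * X)) := by
            field_simp
        _ ≤ D / C * a y ^ (δ - k) := mul_le_mul_of_nonneg_left h4 (by positivity)
    calc a (eval t (P.coeff k)) * a y ^ k ≤ (D / C * a y ^ (δ - k)) * a y ^ k :=
          mul_le_mul_of_nonneg_right ((hcoef k hk).trans h1) (by positivity)
      _ = D / C * a y ^ δ := by
        rw [mul_assoc, ← pow_add, Nat.sub_add_cancel hk.le]
  have hexp : evh t y P = ∑ k ∈ Finset.range δ, eval t (P.coeff k) * y ^ k + y ^ δ := by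
    rw [evh, Polynomial.coe_eval₂RingHom, Polynomial.eval₂_eq_sum_range, Finset.sum_range_succ]
    have : P.coeff P.natDegree = 1 := hP
    rw [this, map_one, one_mul]
  rw [hroot] at hexp
  have hy : a (y ^ δ) = a (∑ k ∈ Finset.range δ, eval t (P.coeff k) * y ^ k) := by
    have : y ^ δ = -(∑ k ∈ Finset.range δ, eval t (P.coeff k) * y ^ k) := by
      linear_combination hexp.symm
    rw [this, a.map_neg]
  have hle2 : a y ^ δ ≤ δ * (D / C * a y ^ δ) := by
    rw [← map_pow, hy]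
    refine (a.sum_le _ _).trans ?_
    rw [← hy, map_pow]
    calc ∑ k ∈ Finset.range δ, a (eval t (P.coeff k) * y ^ k)
        ≤ ∑ k ∈ Finset.range δ, (D / C * a y ^ δ) :=
          Finset.sum_le_sum fun k hk => hterm k (Finset.mem_range.mp hk)
      _ = δ * (D / C * a y ^ δ) := by
        rw [Finset.sum_const, Finset.card_range, nsmul_eq_mul]
  have hyδ : 0 < a y ^ δ := pow_pos hypos _
  have hlt1 : (δ : ℝ) * (D / C) < 1 := by
    rw [← mul_div_assoc, div_lt_one hC0, hC]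
    nlinarith
  nlinarith

lemma sum_est {K : Type} [Field K] {n : ℕ} (a : AbsoluteValue K ℝ) (θ : Fin n → ℝ) (h : ℝ)
    (B : Polynomial (Pl K n)) (W : ℕ → ℝ) (hB : ∀ j, LeW θ h (W j) (B.coeff j))
    (C₁ : ℝ) (hC₁ : 1 ≤ C₁) :
    ∃ C : ℝ, 1 ≤ C ∧ ∀ (t : Fin n → K) (y : K) (r X : ℝ), 1 ≤ X → 0 ≤ r → Near a θ r X t →
      a y ≤ C₁ * Real.exp ((h + C₁ * r) * X) →
      ∀ (s : K) (ρ v : ℝ), a s ≤ Real.exp (ρ * X) → (∀ j : ℕ, W j + ρ * j ≤ v) →
      a (Polynomial.eval₂ (evh t y) s B) ≤ C * Real.exp ((v + C * r) * X) := by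
  choose Cj hCj1 hCj using fun j : ℕ => ev_le a θ h _ (B.coeff j) (hB j) C₁ hC₁
  have hsum0 : 0 ≤ ∑ j ∈ B.support, Cj j :=
    Finset.sum_nonneg fun k _ => by linarith [hCj1 k]
  refine ⟨1 + ∑ j ∈ B.support, Cj j, by linarith, ?_⟩
  intro t y r X hX hr hN hy s ρ v hs hv
  have hX0 : (0 : ℝ) ≤ X := by linarith
  rw [Polynomial.eval₂_eq_sum, Polynomial.sum]
  refine (a.sum_le _ _).trans ?_
  have hterm : ∀ j ∈ B.support, a (evh t y (B.coeff j) * s ^ j) ≤
      Cj j * Real.exp ((v + (1 + ∑ j ∈ B.support, Cj j) * r) * X) := by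
    intro j hj
    rw [map_mul, map_pow]
    have h1 := hCj j t y r X hX hr hN hy
    have h2 : a s ^ j ≤ Real.exp (ρ * j * X) := by
      calc a s ^ j ≤ Real.exp (ρ * X) ^ j := pow_le_pow_left₀ (a.nonneg _) hs _
        _ = Real.exp (ρ * j * X) := by
          rw [← Real.exp_nat_mul]
          congr 1
          ring
    have hCjle : Cj j ≤ 1 + ∑ j ∈ B.support, Cj j := by
      have := Finset.single_le_sum (f := Cj) (s := B.support)
        (fun k _ => by linarith [hCj1 k]) hj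
      linarith
    have h0 : 0 ≤ Cj j := by linarith [hCj1 j]
    calc a (evh t y (B.coeff j)) * a s ^ j
        ≤ (Cj j * Real.exp ((W j + Cj j * r) * X)) * Real.exp (ρ * j * X) :=
          mul_le_mul h1 h2 (pow_nonneg (a.nonneg _) _) (mul_nonneg h0 (Real.exp_pos _).le)
      _ = Cj j * Real.exp ((W j + ρ * j + Cj j * r) * X) := by
          rw [mul_assoc, ← Real.exp_add]
          congr 2
          ring
      _ ≤ Cj j * Real.exp ((v + (1 + ∑ j ∈ B.support, Cj j) * r) * X) := by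
          apply mul_le_mul_of_nonneg_left _ h0
          apply Real.exp_le_exp.mpr
          apply mul_le_mul_of_nonneg_right _ hX0
          have := mul_le_mul_of_nonneg_right hCjle hr
          linarith [hv j]
  calc ∑ j ∈ B.support, a (evh t y (B.coeff j) * s ^ j)
      ≤ ∑ j ∈ B.support, Cj j * Real.exp ((v + (1 + ∑ j ∈ B.support, Cj j) * r) * X) :=
        Finset.sum_le_sum hterm
    _ = (∑ j ∈ B.support, Cj j) * Real.exp ((v + (1 + ∑ j ∈ B.support, Cj j) * r) * X) := by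
        rw [Finset.sum_mul]
    _ ≤ (1 + ∑ j ∈ B.support, Cj j) * Real.exp ((v + (1 + ∑ j ∈ B.support, Cj j) * r) * X) :=
        mul_le_mul_of_nonneg_right (by linarith) (Real.exp_pos _).le

/-- The real inequality behind the main estimate. -/
lemma aux_real {D w η X c r a₁ a₂ q h₁ h₂ τ : ℝ} (hc : 0 < c) (hD : 1 ≤ D) (hX : 1 ≤ X)
    (hr : 0 ≤ r) (hτ : 1 ≤ τ) (hη : η ≤ c / 16) (hh₂ : 0 ≤ h₂)
    (hCr : 16 * D ^ 2 * r ≤ c / 16) (hCX : 16 * D ^ 2 ≤ Real.exp (c / 16 * X))
    (hA : 1 / 2 * Real.exp ((w - η) * X) ≤ D * Real.exp ((w - a₁ + D * r) * X) * q)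
    (hB : q ≤ h₁ + D * Real.exp ((a₁ - c + η + D * r) * X))
    (hP : h₁ * h₂ ≤ D * Real.exp ((a₁ + a₂ - 7 / 8 * τ * c + D * r) * X)) :
    h₂ ≤ 16 * D ^ 2 * Real.exp ((a₂ - τ * c / 2 + η + 16 * D ^ 2 * r) * X) := by
  have hX0 : (0 : ℝ) ≤ X := by linarith
  have hD0 : (0 : ℝ) < D := by linarith
  have hDD : D ≤ D ^ 2 := by nlinarith
  have hDr : D * r ≤ D ^ 2 * r := mul_le_mul_of_nonneg_right hDD hr
  have hDr0 : 0 ≤ D * r := mul_nonneg hD0.le hr
  set Y := Real.exp ((a₁ - η - D * r) * X) with hY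
  have hYpos : 0 < Y := Real.exp_pos _
  have h1 : 1 / 2 * Y ≤ D * q := by
    have h2 := mul_le_mul_of_nonneg_left hA (Real.exp_pos (-((w - a₁ + D * r) * X))).le
    have h3 : Real.exp (-((w - a₁ + D * r) * X)) * (1 / 2 * Real.exp ((w - η) * X)) =
        1 / 2 * Y := by
      rw [hY, mul_left_comm, ← Real.exp_add]
      congr 2
      ring
    have h4 : Real.exp (-((w - a₁ + D * r) * X)) *
        (D * Real.exp ((w - a₁ + D * r) * X) * q) = D * q := by
      have : Real.exp (-((w - a₁ + D * r) * X)) * Real.exp ((w - a₁ + D * r) * X) = 1 := by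
        rw [← Real.exp_add, neg_add_cancel, Real.exp_zero]
      calc Real.exp (-((w - a₁ + D * r) * X)) * (D * Real.exp ((w - a₁ + D * r) * X) * q)
          = (Real.exp (-((w - a₁ + D * r) * X)) * Real.exp ((w - a₁ + D * r) * X)) * (D * q) := by
            ring
        _ = D * q := by rw [this, one_mul]
    rwa [h3, h4] at h2
  have h2 : D * (D * Real.exp ((a₁ - c + η + D * r) * X)) ≤ 1 / 4 * Y := by
    have h3 : Real.exp ((a₁ - c + η + D * r) * X) ≤ Real.exp (-(c / 16 * X)) * Y := by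
      rw [hY, ← Real.exp_add]
      apply Real.exp_le_exp.mpr
      have : (a₁ - c + η + D * r) ≤ -(c / 16) + (a₁ - η - D * r) := by linarith
      calc (a₁ - c + η + D * r) * X ≤ (-(c / 16) + (a₁ - η - D * r)) * X :=
            mul_le_mul_of_nonneg_right this hX0
        _ = -(c / 16 * X) + (a₁ - η - D * r) * X := by ring
    have h4 : 16 * D ^ 2 * Real.exp (-(c / 16 * X)) ≤ 1 := by
      have h5 := mul_le_mul_of_nonneg_right hCX (Real.exp_pos (-(c / 16 * X))).le
      rwa [← Real.exp_add, add_neg_cancel, Real.exp_zero] at h5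
    calc D * (D * Real.exp ((a₁ - c + η + D * r) * X))
        ≤ D * (D * (Real.exp (-(c / 16 * X)) * Y)) := by
          apply mul_le_mul_of_nonneg_left _ hD0.le
          exact mul_le_mul_of_nonneg_left h3 hD0.le
      _ = (D ^ 2 * Real.exp (-(c / 16 * X))) * Y := by ring
      _ ≤ 1 / 4 * Y := by
          apply mul_le_mul_of_nonneg_right _ hYpos.le
          linarith
  have h3 : 1 / 4 * Y ≤ D * h₁ := by
    have := mul_le_mul_of_nonneg_left hB hD0.le
    linarith
  have h4 : 1 / 4 * Y * h₂ ≤ D * (D * Real.exp ((a₁ + a₂ - 7 / 8 * τ * c + D * r) * X)) := by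
    calc 1 / 4 * Y * h₂ ≤ D * h₁ * h₂ := mul_le_mul_of_nonneg_right h3 hh₂
      _ = D * (h₁ * h₂) := by ring
      _ ≤ _ := mul_le_mul_of_nonneg_left hP hD0.le
  have h5 : Real.exp ((a₁ + a₂ - 7 / 8 * τ * c + D * r) * X) ≤
      Y * Real.exp ((a₂ - τ * c / 2 + η + 16 * D ^ 2 * r) * X) := by
    rw [hY, ← Real.exp_add]
    apply Real.exp_le_exp.mpr
    have hτc : 0 ≤ τ * c := by positivity
    have : (a₁ + a₂ - 7 / 8 * τ * c + D * r) ≤
        (a₁ - η - D * r) + (a₂ - τ * c / 2 + η + 16 * D ^ 2 * r) := by nlinarith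
    calc (a₁ + a₂ - 7 / 8 * τ * c + D * r) * X ≤
          ((a₁ - η - D * r) + (a₂ - τ * c / 2 + η + 16 * D ^ 2 * r)) * X :=
          mul_le_mul_of_nonneg_right this hX0
      _ = (a₁ - η - D * r) * X + (a₂ - τ * c / 2 + η + 16 * D ^ 2 * r) * X := by ring
  have h6 : Y * h₂ ≤ Y * (16 * D ^ 2 * Real.exp ((a₂ - τ * c / 2 + η + 16 * D ^ 2 * r) * X)) := by
    calc Y * h₂ = 4 * (1 / 4 * Y * h₂) := by ring
      _ ≤ 4 * (D * (D * Real.exp ((a₁ + a₂ - 7 / 8 * τ * c + D * r) * X))) := by linarith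
      _ ≤ 4 * (D * (D * (Y * Real.exp ((a₂ - τ * c / 2 + η + 16 * D ^ 2 * r) * X)))) := by
          apply mul_le_mul_of_nonneg_left _ (by norm_num)
          apply mul_le_mul_of_nonneg_left _ hD0.le
          exact mul_le_mul_of_nonneg_left h5 hD0.le
      _ = 4 * D ^ 2 * (Y * Real.exp ((a₂ - τ * c / 2 + η + 16 * D ^ 2 * r) * X)) := by ring
      _ ≤ 16 * D ^ 2 * (Y * Real.exp ((a₂ - τ * c / 2 + η + 16 * D ^ 2 * r) * X)) := by
          apply mul_le_mul_of_nonneg_right _ (by positivity)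
          nlinarith
      _ = _ := by ring
  exact le_of_mul_le_mul_left h6 hYpos

/-- The main estimate. -/
theorem main_est {K : Type} [Field K] {n : ℕ} (a : AbsoluteValue K ℝ) (θ : Fin n → ℝ) (h : ℝ)
    (P Q₁ Q₂ U V R : Pl K n) (g : MvPolynomial (Fin n) K) (w c : ℝ) (hc : 0 < c)
    (hP : P.Monic) (hPQ : P = Q₁ * Q₂ + R) (hQ₁ : Q₁.Monic) (hQ₂ : Q₂.Monic)
    (h₁ : HomW θ h (h * Q₁.natDegree) Q₁) (h₂ : HomW θ h (h * Q₂.natDegree) Q₂)
    (hU : HomW θ h (w - h * Q₁.natDegree) U) (hV : HomW θ h (w - h * Q₂.natDegree) V)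
    (hg : HomW θ h w (Polynomial.C g)) (hg0 : g ≠ 0) (hUV : U * Q₁ + V * Q₂ = Polynomial.C g)
    (hR : LeW θ h (h * (Q₁.natDegree + Q₂.natDegree : ℕ) - c) R) (τ : ℕ) (hτ : 1 ≤ τ)
    (B₁ B₂ E : Polynomial (Pl K n))
    (hB₁ : ∀ j : ℕ, LeW θ h (h * Q₁.natDegree - w - (j + 1) * (c - 2 * w)) (B₁.coeff j))
    (hB₂ : ∀ j : ℕ, LeW θ h (h * Q₂.natDegree - w - (j + 1) * (c - 2 * w)) (B₂.coeff j))
    (hE : ∀ j : ℕ, LeW θ h (h * (Q₁.natDegree + Q₂.natDegree : ℕ) - 2 * w -
      (τ + j) * (c - 2 * w)) (E.coeff j))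
    (hprod : (Polynomial.C Q₁ + Polynomial.X * Polynomial.C (Polynomial.C g) * B₁) *
          (Polynomial.C Q₂ + Polynomial.X * Polynomial.C (Polynomial.C g) * B₂) =
        Polynomial.C (Q₁ * Q₂) + Polynomial.X * Polynomial.C (Polynomial.C g ^ 2 * R) +
          Polynomial.X ^ τ * Polynomial.C (Polynomial.C g ^ 2) * E) (C₁ : ℝ) (hC₁ : 1 ≤ C₁) :
    ∃ C : ℝ, 1 ≤ C ∧ ∀ (t : Fin n → K) (y : K) (r η X : ℝ), 1 ≤ X → 0 ≤ r → Near a θ r X t →
      a y ≤ C₁ * Real.exp ((h + C₁ * r) * X) → evh t y P = 0 → eval t g ≠ 0 →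
      0 ≤ η → η ≤ c / 16 → C * r ≤ c / 16 → C ≤ Real.exp (c / 16 * X) →
      Real.exp ((w - η) * X) ≤ a (eval t g) →
      a (Polynomial.eval₂ (evh t y) ((eval t g)⁻¹ ^ 2)
          (Polynomial.C Q₁ + Polynomial.X * Polynomial.C (Polynomial.C g) * B₁)) ≤
        C * Real.exp ((h * Q₁.natDegree - τ * c / 2 + η + C * r) * X) ∨
      a (Polynomial.eval₂ (evh t y) ((eval t g)⁻¹ ^ 2)
          (Polynomial.C Q₂ + Polynomial.X * Polynomial.C (Polynomial.C g) * B₂)) ≤
        C * Real.exp ((h * Q₂.natDegree - τ * c / 2 + η + C * r) * X) := by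
  obtain ⟨CU, hCU1, hCU⟩ := ev_le a θ h _ U (fun k α hα => (hU k α hα).le) C₁ hC₁
  obtain ⟨CV, hCV1, hCV⟩ := ev_le a θ h _ V (fun k α hα => (hV k α hα).le) C₁ hC₁
  obtain ⟨CB₁, hCB₁1, hCB₁⟩ := sum_est a θ h B₁ _ hB₁ C₁ hC₁
  obtain ⟨CB₂, hCB₂1, hCB₂⟩ := sum_est a θ h B₂ _ hB₂ C₁ hC₁
  obtain ⟨CE, hCE1, hCE⟩ := sum_est a θ h E _ hE C₁ hC₁
  set D : ℝ := CU + CV + CB₁ + CB₂ + CE with hDdef
  have hD1 : 1 ≤ D := by linarith
  have hD0 : 0 ≤ D := by linarith
  have hDU : CU ≤ D := by linarith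
  have hDV : CV ≤ D := by linarith
  have hDB₁ : CB₁ ≤ D := by linarith
  have hDB₂ : CB₂ ≤ D := by linarith
  have hDE : CE ≤ D := by linarith
  refine ⟨16 * D ^ 2, by nlinarith, ?_⟩
  intro t y r η X hX hr hN hy hroot hgt hη0 hη hCr hCX hgl
  have hX0 : (0 : ℝ) ≤ X := by linarith
  set g₀ := eval t g with hg₀
  have hevg : evh t y (Polynomial.C g) = g₀ := by
    rw [evh, Polynomial.coe_eval₂RingHom, Polynomial.eval₂_C]
  have hginv : a (g₀⁻¹) ≤ Real.exp ((η - w) * X) := by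
    rw [map_inv₀]
    have h1 : Real.exp ((η - w) * X) = (Real.exp ((w - η) * X))⁻¹ := by
      rw [← Real.exp_neg]
      congr 1
      ring
    rw [h1]
    exact inv_anti₀ (Real.exp_pos _) hgl
  set s := g₀⁻¹ ^ 2 with hs
  have hs_le : a s ≤ Real.exp ((2 * (η - w)) * X) := by
    rw [hs, map_pow]
    calc a g₀⁻¹ ^ 2 ≤ Real.exp ((η - w) * X) ^ 2 := pow_le_pow_left₀ (a.nonneg _) hginv _
      _ = Real.exp ((2 * (η - w)) * X) := by
        rw [← Real.exp_nat_mul]
        congr 1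
        push_cast
        ring
  have hsg : s * g₀ ^ 2 = 1 := by
    rw [hs, ← mul_pow, inv_mul_cancel₀ hgt, one_pow]
  have hsg1 : s * g₀ = g₀⁻¹ := by
    rw [hs, pow_two, mul_assoc, inv_mul_cancel₀ hgt, mul_one]
  -- the bounds
  have hU' : a (evh t y U) ≤ D * Real.exp ((w - h * Q₁.natDegree + D * r) * X) :=
    (hCU t y r X hX hr hN hy).trans (mono_const (by linarith) hDU hr hX0)
  have hV' : a (evh t y V) ≤ D * Real.exp ((w - h * Q₂.natDegree + D * r) * X) :=
    (hCV t y r X hX hr hN hy).trans (mono_const (by linarith) hDV hr hX0)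
  have hηj : ∀ j : ℕ, 2 * η * j ≤ j * c := by
    intro j
    have hj : (0 : ℝ) ≤ j := Nat.cast_nonneg _
    nlinarith
  have hB₁' : a (Polynomial.eval₂ (evh t y) s B₁) ≤
      D * Real.exp ((h * Q₁.natDegree + w - c + D * r) * X) := by
    refine (hCB₁ t y r X hX hr hN hy s (2 * (η - w)) (h * Q₁.natDegree + w - c) hs_le ?_).trans
      (mono_const (by linarith) hDB₁ hr hX0)
    intro j
    have := hηj j
    linarith
  have hB₂' : a (Polynomial.eval₂ (evh t y) s B₂) ≤
      D * Real.exp ((h * Q₂.natDegree + w - c + D * r) * X) := by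
    refine (hCB₂ t y r X hX hr hN hy s (2 * (η - w)) (h * Q₂.natDegree + w - c) hs_le ?_).trans
      (mono_const (by linarith) hDB₂ hr hX0)
    intro j
    have := hηj j
    linarith
  have hE' : a (Polynomial.eval₂ (evh t y) s E) ≤
      D * Real.exp ((h * Q₁.natDegree + h * Q₂.natDegree + (2 * τ - 2) * w - τ * c + D * r) *
        X) := by
    refine (hCE t y r X hX hr hN hy s (2 * (η - w))
      (h * Q₁.natDegree + h * Q₂.natDegree + (2 * τ - 2) * w - τ * c) hs_le ?_).trans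
      (mono_const (by linarith) hDE hr hX0)
    intro j
    have := hηj j
    push_cast
    linarith
  -- the two values
  set H₁ := Polynomial.eval₂ (evh t y) s
    (Polynomial.C Q₁ + Polynomial.X * Polynomial.C (Polynomial.C g) * B₁) with hH₁
  set H₂ := Polynomial.eval₂ (evh t y) s
    (Polynomial.C Q₂ + Polynomial.X * Polynomial.C (Polynomial.C g) * B₂) with hH₂
  have hH₁' : H₁ = evh t y Q₁ + g₀⁻¹ * Polynomial.eval₂ (evh t y) s B₁ := by
    rw [hH₁, Polynomial.eval₂_add, Polynomial.eval₂_C, Polynomial.eval₂_mul,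
      Polynomial.eval₂_mul, Polynomial.eval₂_X, Polynomial.eval₂_C, hevg, hsg1]
  have hH₂' : H₂ = evh t y Q₂ + g₀⁻¹ * Polynomial.eval₂ (evh t y) s B₂ := by
    rw [hH₂, Polynomial.eval₂_add, Polynomial.eval₂_C, Polynomial.eval₂_mul,
      Polynomial.eval₂_mul, Polynomial.eval₂_X, Polynomial.eval₂_C, hevg, hsg1]
  obtain ⟨τ', rfl⟩ : ∃ τ', τ = τ' + 1 := ⟨τ - 1, by omega⟩
  have hHH : H₁ * H₂ = s ^ τ' * Polynomial.eval₂ (evh t y) s E := by
    have h1 : H₁ * H₂ = evh t y (Q₁ * Q₂) + s * (g₀ ^ 2 * evh t y R) +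
        s ^ (τ' + 1) * g₀ ^ 2 * Polynomial.eval₂ (evh t y) s E := by
      rw [hH₁, hH₂, ← Polynomial.eval₂_mul, hprod, Polynomial.eval₂_add, Polynomial.eval₂_add,
        Polynomial.eval₂_mul, Polynomial.eval₂_mul, Polynomial.eval₂_mul, Polynomial.eval₂_pow,
        Polynomial.eval₂_X, Polynomial.eval₂_C, Polynomial.eval₂_C, Polynomial.eval₂_C,
        map_mul (evh t y) (Polynomial.C g ^ 2) R, map_pow, hevg]
    have h2 : evh t y (Q₁ * Q₂) + evh t y R = 0 := by
      rw [← map_add, ← hPQ, hroot]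
    rw [h1]
    calc evh t y (Q₁ * Q₂) + s * (g₀ ^ 2 * evh t y R) +
          s ^ (τ' + 1) * g₀ ^ 2 * Polynomial.eval₂ (evh t y) s E
        = evh t y (Q₁ * Q₂) + (s * g₀ ^ 2) * evh t y R +
          s ^ τ' * (s * g₀ ^ 2) * Polynomial.eval₂ (evh t y) s E := by ring
      _ = _ := by rw [hsg, one_mul, mul_one, h2, zero_add]
  have hprodle : a H₁ * a H₂ ≤ D * Real.exp ((h * Q₁.natDegree + h * Q₂.natDegree -
      7 / 8 * ((τ' + 1 : ℕ) : ℝ) * c + D * r) * X) := by
    rw [← map_mul, hHH, map_mul, map_pow]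
    have h1 : a s ^ τ' ≤ Real.exp ((2 * (η - w)) * τ' * X) := by
      calc a s ^ τ' ≤ Real.exp ((2 * (η - w)) * X) ^ τ' :=
            pow_le_pow_left₀ (a.nonneg _) hs_le _
        _ = Real.exp ((2 * (η - w)) * τ' * X) := by
          rw [← Real.exp_nat_mul]
          congr 1
          ring
    calc a s ^ τ' * a (Polynomial.eval₂ (evh t y) s E)
        ≤ Real.exp ((2 * (η - w)) * τ' * X) * (D * Real.exp ((h * Q₁.natDegree +
            h * Q₂.natDegree + (2 * ((τ' + 1 : ℕ) : ℝ) - 2) * w - ((τ' + 1 : ℕ) : ℝ) * c +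
              D * r) * X)) :=
          mul_le_mul h1 hE' (a.nonneg _) (Real.exp_pos _).le
      _ = D * Real.exp ((h * Q₁.natDegree + h * Q₂.natDegree + 2 * η * τ' -
            ((τ' + 1 : ℕ) : ℝ) * c + D * r) * X) := by
          rw [mul_left_comm, ← Real.exp_add]
          congr 2
          push_cast
          ring
      _ ≤ _ := by
          apply mul_le_mul_of_nonneg_left _ hD0
          apply Real.exp_le_exp.mpr
          apply mul_le_mul_of_nonneg_right _ hX0
          push_cast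
          have hj : (0 : ℝ) ≤ τ' := Nat.cast_nonneg _
          nlinarith
  have hQ₁le : a (evh t y Q₁) ≤ a H₁ +
      D * Real.exp ((h * Q₁.natDegree - c + η + D * r) * X) := by
    have h1 : evh t y Q₁ = H₁ - g₀⁻¹ * Polynomial.eval₂ (evh t y) s B₁ := by
      rw [hH₁']; ring
    rw [h1]
    have h3 : a (H₁ - g₀⁻¹ * Polynomial.eval₂ (evh t y) s B₁) ≤
        a H₁ + a (g₀⁻¹ * Polynomial.eval₂ (evh t y) s B₁) := a.sub_le_add _ _
    have h2 : a (g₀⁻¹ * Polynomial.eval₂ (evh t y) s B₁) ≤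
        D * Real.exp ((h * Q₁.natDegree - c + η + D * r) * X) := by
      rw [map_mul]
      calc a g₀⁻¹ * a (Polynomial.eval₂ (evh t y) s B₁)
          ≤ Real.exp ((η - w) * X) *
            (D * Real.exp ((h * Q₁.natDegree + w - c + D * r) * X)) :=
            mul_le_mul hginv hB₁' (a.nonneg _) (Real.exp_pos _).le
        _ = _ := by
          rw [mul_left_comm, ← Real.exp_add]
          congr 2
          ring
    linarith
  have hQ₂le : a (evh t y Q₂) ≤ a H₂ +
      D * Real.exp ((h * Q₂.natDegree - c + η + D * r) * X) := by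
    have h1 : evh t y Q₂ = H₂ - g₀⁻¹ * Polynomial.eval₂ (evh t y) s B₂ := by
      rw [hH₂']; ring
    rw [h1]
    have h3 : a (H₂ - g₀⁻¹ * Polynomial.eval₂ (evh t y) s B₂) ≤
        a H₂ + a (g₀⁻¹ * Polynomial.eval₂ (evh t y) s B₂) := a.sub_le_add _ _
    have h2 : a (g₀⁻¹ * Polynomial.eval₂ (evh t y) s B₂) ≤
        D * Real.exp ((h * Q₂.natDegree - c + η + D * r) * X) := by
      rw [map_mul]
      calc a g₀⁻¹ * a (Polynomial.eval₂ (evh t y) s B₂)
          ≤ Real.exp ((η - w) * X) *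
            (D * Real.exp ((h * Q₂.natDegree + w - c + D * r) * X)) :=
            mul_le_mul hginv hB₂' (a.nonneg _) (Real.exp_pos _).le
        _ = _ := by
          rw [mul_left_comm, ← Real.exp_add]
          congr 2
          ring
    linarith
  have hsplit : Real.exp ((w - η) * X) ≤
      D * Real.exp ((w - h * Q₁.natDegree + D * r) * X) * a (evh t y Q₁) +
      D * Real.exp ((w - h * Q₂.natDegree + D * r) * X) * a (evh t y Q₂) := by
    have h1 : g₀ = evh t y U * evh t y Q₁ + evh t y V * evh t y Q₂ := by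
      rw [← map_mul, ← map_mul, ← map_add, hUV, hevg]
    calc Real.exp ((w - η) * X) ≤ a g₀ := hgl
      _ = a (evh t y U * evh t y Q₁ + evh t y V * evh t y Q₂) := by rw [← h1]
      _ ≤ a (evh t y U * evh t y Q₁) + a (evh t y V * evh t y Q₂) := a.add_le _ _
      _ = a (evh t y U) * a (evh t y Q₁) + a (evh t y V) * a (evh t y Q₂) := by
        rw [map_mul, map_mul]
      _ ≤ _ := add_le_add (mul_le_mul_of_nonneg_right hU' (a.nonneg _))
        (mul_le_mul_of_nonneg_right hV' (a.nonneg _))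
  have hτ1 : (1 : ℝ) ≤ ((τ' + 1 : ℕ) : ℝ) := by exact_mod_cast hτ
  by_cases hcase : 1 / 2 * Real.exp ((w - η) * X) ≤
      D * Real.exp ((w - h * Q₁.natDegree + D * r) * X) * a (evh t y Q₁)
  · right
    exact aux_real hc hD1 hX hr hτ1 hη (a.nonneg _) hCr hCX hcase hQ₁le hprodle
  · left
    have hcase2 : 1 / 2 * Real.exp ((w - η) * X) ≤
        D * Real.exp ((w - h * Q₂.natDegree + D * r) * X) * a (evh t y Q₂) := by
      rw [not_le] at hcase
      linarith
    have hprodle' : a H₂ * a H₁ ≤ D * Real.exp ((h * Q₂.natDegree + h * Q₁.natDegree -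
        7 / 8 * ((τ' + 1 : ℕ) : ℝ) * c + D * r) * X) := by
      rw [mul_comm (a H₂), add_comm (h * (Q₂.natDegree : ℝ))]
      exact hprodle
    exact aux_real hc hD1 hX hr hτ1 hη (a.nonneg _) hCr hCX hcase2 hQ₂le hprodle'

end Pool.Agent.Helper74.RC
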