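import Mathlib

set_option autoImplicit false

open Filter Topology

namespace Pool.Agent.Helper74

/-- the index set of the `k`-th block: the vertices of the `k`-dimensional cube -/
abbrev Cube (k : ℕ) : Type := Fin k → Bool

/-- unnormalised Sylvester-Hadamard matrix entries -/
def had0 {k : ℕ} (x y : Cube k) : ℝ := ∏ i, (if x i && y i then (-1 : ℝ) else 1)

theorem had0_comm {k : ℕ} (x y : Cube k) : had0 x y = had0 y x := by
  unfold had0
  refine Finset.prod_congr rfl fun i _ => ?_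
  rw [Bool.and_comm]

theorem had0_sq {k : ℕ} (x y : Cube k) : had0 x y ^ 2 = 1 := by
  unfold had0
  rw [← Finset.prod_pow]
  refine Finset.prod_eq_one fun i _ => ?_
  split_ifs <;> norm_num

theorem sum_had0_mul {k : ℕ} (x y : Cube k) :
    ∑ z, had0 x z * had0 z y = if x = y then (2 : ℝ) ^ k else 0 := by
  have h1 : ∀ z : Cube k, had0 x z * had0 z y
      = ∏ i, ((if x i && z i then (-1 : ℝ) else 1) * (if z i && y i then (-1 : ℝ) else 1)) := by
    intro z
    rw [Finset.prod_mul_distrib]; rfl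
  have h2 : ∑ z : Cube k, had0 x z * had0 z y
      = ∏ i, ∑ s : Bool, ((if x i && s then (-1 : ℝ) else 1)
          * (if s && y i then (-1 : ℝ) else 1)) := by
    rw [Finset.prod_univ_sum]
    simp only [Fintype.piFinset_univ]
    exact Finset.sum_congr rfl fun z _ => h1 z
  rw [h2]
  have h3 : ∀ i, ∑ s : Bool, ((if x i && s then (-1 : ℝ) else 1)
          * (if s && y i then (-1 : ℝ) else 1)) = if x i = y i then 2 else 0 := by
    intro i
    cases x i <;> cases y i <;> simp [one_add_one_eq_two]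
  simp only [h3]
  by_cases hxy : x = y
  · subst hxy; simp
  · rw [if_neg hxy]
    obtain ⟨i, hi⟩ := Function.ne_iff.mp hxy
    exact Finset.prod_eq_zero (Finset.mem_univ i) (if_neg hi)

/-- normalised Hadamard matrix entries -/
noncomputable def had {k : ℕ} (x y : Cube k) : ℝ := had0 x y / Real.sqrt (2 ^ k)

theorem had_comm {k : ℕ} (x y : Cube k) : had x y = had y x := by
  unfold had; rw [had0_comm]

theorem had_sq {k : ℕ} (x y : Cube k) : had x y ^ 2 = 1 / 2 ^ k := by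
  unfold had
  rw [div_pow, had0_sq, Real.sq_sqrt (by positivity)]

theorem sum_had_mul {k : ℕ} (x y : Cube k) :
    ∑ z, had x z * had z y = if x = y then (1 : ℝ) else 0 := by
  have h1 : ∀ z : Cube k, had x z * had z y = (had0 x z * had0 z y) / 2 ^ k := by
    intro z
    unfold had
    rw [div_mul_div_comm, Real.mul_self_sqrt (by positivity)]
  simp only [h1]
  rw [← Finset.sum_div, sum_had0_mul]
  split_ifs
  · field_simp
  · simp

variable (𝕜 : Type*) [RCLike 𝕜]

/-- The Hadamard involution on the `k`-th Euclidean block. -/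
noncomputable def hadU (k : ℕ) : EuclideanSpace 𝕜 (Cube k) →ₗ[𝕜] EuclideanSpace 𝕜 (Cube k) where
  toFun b := WithLp.toLp 2 (fun x => ∑ y, (had x y : 𝕜) * b y)
  map_add' b c := by
    ext x
    simp [mul_add, Finset.sum_add_distrib]
  map_smul' r b := by
    ext x
    simp [Finset.mul_sum, mul_left_comm]

theorem hadU_apply {k : ℕ} (b : EuclideanSpace 𝕜 (Cube k)) (x : Cube k) :
    hadU 𝕜 k b x = ∑ y, (had x y : 𝕜) * b y := rfl

theorem hadU_hadU {k : ℕ} (b : EuclideanSpace 𝕜 (Cube k)) : hadU 𝕜 k (hadU 𝕜 k b) = b := by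
  ext x
  simp only [hadU_apply]
  have h1 : ∀ y, (had x y : 𝕜) * ∑ z, (had y z : 𝕜) * b z
      = ∑ z, ((had x y * had y z : ℝ) : 𝕜) * b z := by
    intro y
    rw [Finset.mul_sum]
    refine Finset.sum_congr rfl fun z _ => ?_
    push_cast; ring
  simp only [h1]
  rw [Finset.sum_comm]
  have h2 : ∀ z, ∑ y, ((had x y * had y z : ℝ) : 𝕜) * b z = (if x = z then 1 else 0) * b z := by
    intro z
    rw [← Finset.sum_mul, ← RCLike.ofReal_sum, sum_had_mul]
    split_ifs <;> simp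
  simp only [h2]
  simp

theorem inner_hadU {k : ℕ} (a b : EuclideanSpace 𝕜 (Cube k)) :
    inner 𝕜 (hadU 𝕜 k a) b = inner 𝕜 a (hadU 𝕜 k b) := by
  simp only [PiLp.inner_apply, hadU_apply, RCLike.inner_apply, map_sum, map_mul,
    RCLike.conj_ofReal]
  simp only [Finset.mul_sum, Finset.sum_mul]
  rw [Finset.sum_comm]
  refine Finset.sum_congr rfl fun x _ => Finset.sum_congr rfl fun y _ => ?_
  rw [had_comm]
  ring

theorem norm_hadU {k : ℕ} (b : EuclideanSpace 𝕜 (Cube k)) : ‖hadU 𝕜 k b‖ = ‖b‖ := by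
  have h : inner 𝕜 (hadU 𝕜 k b) (hadU 𝕜 k b) = inner 𝕜 b b := by
    rw [inner_hadU, hadU_hadU]
  rw [inner_self_eq_norm_sq_to_K, inner_self_eq_norm_sq_to_K] at h
  have h' : ‖hadU 𝕜 k b‖ ^ 2 = ‖b‖ ^ 2 := by exact_mod_cast h
  exact (sq_eq_sq₀ (norm_nonneg _) (norm_nonneg _)).mp h'

/-- A finite subset of the unit ball of a finite dimensional Hilbert space that norms every vector
up to a factor `2`. -/
theorem exists_norming (H : Type*) [NormedAddCommGroup H] [InnerProductSpace 𝕜 H]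
    [FiniteDimensional 𝕜 H] :
    ∃ Θ : Finset H, Θ.Nonempty ∧ (∀ θ ∈ Θ, ‖θ‖ ≤ 1) ∧
      ∀ b : H, ∃ θ ∈ Θ, ‖b‖ ≤ 2 * ‖inner 𝕜 θ b‖ := by
  have : ProperSpace H := FiniteDimensional.proper 𝕜 H
  have hc : IsCompact (Metric.closedBall (0 : H) 1) := isCompact_closedBall 0 1
  obtain ⟨t, ht1, ht2, ht3⟩ := hc.finite_cover_balls (e := 1 / 2) (by norm_num)
  classical
  refine ⟨ht2.toFinset ∪ {0}, ⟨0, by simp⟩, ?_, ?_⟩
  · intro θ hθ
    rw [Finset.mem_union, Set.Finite.mem_toFinset, Finset.mem_singleton] at hθ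
    rcases hθ with h | h
    · simpa using ht1 h
    · rw [h]; simp
  · intro b
    by_cases hb : b = 0
    · exact ⟨0, by simp, by simp [hb]⟩
    have hbn : 0 < ‖b‖ := norm_pos_iff.mpr hb
    set c : H := ((‖b‖⁻¹ : ℝ) : 𝕜) • b with hc'
    have hcn : ‖c‖ = 1 := by
      rw [hc', norm_smul, RCLike.norm_ofReal, abs_of_pos (by positivity)]
      field_simp
    have hcmem : c ∈ Metric.closedBall (0 : H) 1 := by simp [hcn]
    have := ht3 hcmem
    simp only [Set.mem_iUnion, Metric.mem_ball] at this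
    obtain ⟨θ, hθ, hd⟩ := this
    refine ⟨θ, by simp [hθ], ?_⟩
    have h1 : inner 𝕜 θ c = inner 𝕜 c c - inner 𝕜 (c - θ) c := by
      rw [inner_sub_left]; ring
    have h2 : ‖inner 𝕜 (c - θ) c‖ ≤ 1 / 2 := by
      calc ‖inner 𝕜 (c - θ) c‖ ≤ ‖c - θ‖ * ‖c‖ := norm_inner_le_norm _ _
        _ ≤ 1 / 2 := by
            rw [hcn, mul_one, ← dist_eq_norm]; exact hd.le
    have h3 : ‖inner 𝕜 c c‖ = 1 := by
      rw [inner_self_eq_norm_sq_to_K, hcn]; simp
    have h4 : 1 / 2 ≤ ‖inner 𝕜 θ c‖ := by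
      rw [h1]
      have := norm_sub_norm_le (inner 𝕜 c c) (inner 𝕜 (c - θ) c)
      linarith
    have h5 : ‖inner 𝕜 θ c‖ = ‖b‖⁻¹ * ‖inner 𝕜 θ b‖ := by
      rw [hc', inner_smul_right, norm_mul, RCLike.norm_ofReal, abs_of_pos (by positivity)]
    rw [h5] at h4
    have h6 : ‖b‖ * (1 / 2) ≤ ‖b‖ * (‖b‖⁻¹ * ‖inner 𝕜 θ b‖) :=
      mul_le_mul_of_nonneg_left h4 hbn.le
    rw [← mul_assoc, mul_inv_cancel₀ hbn.ne', one_mul] at h6
    linarith

end Pool.Agent.Helper74
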