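import Pool.Agent.Helper74.Riesz
import Pool.Agent.Helper74.Hadamard

set_option autoImplicit false

open Filter Topology

namespace Pool.Agent.Helper74

variable {𝕜 : Type*} [RCLike 𝕜] {k : ℕ}

/-- the vector `(e_i - U e_i)/2` -/
noncomputable def minusVec (𝕜 : Type*) [RCLike 𝕜] {k : ℕ} (i : Cube k) :
    EuclideanSpace 𝕜 (Cube k) :=
  (2⁻¹ : 𝕜) • (EuclideanSpace.single i (1 : 𝕜) - hadU 𝕜 k (EuclideanSpace.single i (1 : 𝕜)))

theorem hadU_single_apply (i l : Cube k) :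
    hadU 𝕜 k (EuclideanSpace.single i (1 : 𝕜)) l = (had l i : 𝕜) := by
  rw [hadU_apply]
  simp

theorem minusVec_apply (i l : Cube k) :
    minusVec 𝕜 i l = 2⁻¹ * ((if l = i then 1 else 0) - (had l i : 𝕜)) := by
  unfold minusVec
  rw [PiLp.smul_apply, PiLp.sub_apply, hadU_single_apply, smul_eq_mul]
  congr 2
  simp

theorem hadU_minusVec (i : Cube k) : hadU 𝕜 k (minusVec 𝕜 i) = - minusVec 𝕜 i := by
  unfold minusVec
  rw [map_smul, map_sub, hadU_hadU, ← smul_neg, neg_sub]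

/-- the coordinatewise restriction to a set of indices -/
noncomputable def restr (A : Finset (Cube k)) (c : EuclideanSpace 𝕜 (Cube k)) :
    EuclideanSpace 𝕜 (Cube k) :=
  WithLp.toLp 2 (fun l => if l ∈ A then c l else 0)

theorem restr_apply (A : Finset (Cube k)) (c : EuclideanSpace 𝕜 (Cube k)) (l : Cube k) :
    restr A c l = if l ∈ A then c l else 0 := rfl

theorem trace_computation (A : Finset (Cube k)) :
    ∑ i ∈ A, ((2⁻¹ : 𝕜) • (restr A (minusVec 𝕜 i) + hadU 𝕜 k (restr A (minusVec 𝕜 i)))) i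
      = (((A.card : ℝ) * (2 ^ k - A.card) / (4 * 2 ^ k) : ℝ) : 𝕜) := by
  have h1 : ∀ i ∈ A,
      ((2⁻¹ : 𝕜) • (restr A (minusVec 𝕜 i) + hadU 𝕜 k (restr A (minusVec 𝕜 i)))) i
      = (((2 ^ k - A.card) / (4 * 2 ^ k) : ℝ) : 𝕜) := by
    intro i hi
    rw [PiLp.smul_apply, PiLp.add_apply, hadU_apply, smul_eq_mul]
    have h2 : ∑ y, (had i y : 𝕜) * restr A (minusVec 𝕜 i) y
        = ∑ y ∈ A, (had i y : 𝕜) * minusVec 𝕜 i y := by
      simp only [restr_apply, mul_ite, mul_zero]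
      rw [Finset.sum_ite_mem, Finset.univ_inter]
    rw [h2, restr_apply, if_pos hi, minusVec_apply, if_pos rfl]
    have h3 : ∀ y ∈ A, (had i y : 𝕜) * minusVec 𝕜 i y
        = 2⁻¹ * ((if y = i then (had i i : 𝕜) else 0) - ((1 / 2 ^ k : ℝ) : 𝕜)) := by
      intro y _
      rw [minusVec_apply, ← had_sq i y, had_comm y i]
      by_cases hy : y = i
      · subst hy
        simp only [if_true]
        push_cast
        ring
      · simp only [hy, if_false]
        push_cast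
        ring
    rw [Finset.sum_congr rfl h3, ← Finset.mul_sum, Finset.sum_sub_distrib, Finset.sum_ite_eq',
      if_pos hi, Finset.sum_const, nsmul_eq_mul]
    have h4 : ((2 : 𝕜) ^ k) ≠ 0 := pow_ne_zero _ two_ne_zero
    push_cast
    field_simp
    ring
  rw [Finset.sum_congr rfl h1, Finset.sum_const, nsmul_eq_mul]
  push_cast
  ring

/-- the embedding of the Euclidean block in `ℓ_∞(Θ)` -/
noncomputable def jmap (Θ : Finset (EuclideanSpace 𝕜 (Cube k))) :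
    EuclideanSpace 𝕜 (Cube k) →ₗ[𝕜] (Θ → 𝕜) where
  toFun b := fun θ => inner 𝕜 (θ : EuclideanSpace 𝕜 (Cube k)) b
  map_add' b c := by ext θ; simp [inner_add_right]
  map_smul' r b := by ext θ; simp [inner_smul_right]

theorem jmap_apply (Θ : Finset (EuclideanSpace 𝕜 (Cube k))) (b : EuclideanSpace 𝕜 (Cube k))
    (θ : Θ) : jmap Θ b θ = inner 𝕜 (θ : EuclideanSpace 𝕜 (Cube k)) b := rfl

theorem norm_sgn_sum_le (ε : Cube k → Bool) (x : EuclideanSpace 𝕜 (Cube k)) :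
    ‖∑ i, ((sgn (ε i) : ℝ) : 𝕜) * x i‖ ≤ Real.sqrt (2 ^ k) * ‖x‖ := by
  calc ‖∑ i, ((sgn (ε i) : ℝ) : 𝕜) * x i‖ ≤ ∑ i, ‖((sgn (ε i) : ℝ) : 𝕜) * x i‖ :=
        norm_sum_le _ _
    _ = ∑ i, 1 * ‖x i‖ := by
        refine Finset.sum_congr rfl fun i _ => ?_
        rw [norm_mul, RCLike.norm_ofReal, abs_sgn]
    _ ≤ Real.sqrt (∑ i : Cube k, 1 ^ 2) * Real.sqrt (∑ i, ‖x i‖ ^ 2) :=
        Real.sum_mul_le_sqrt_mul_sqrt _ _ _
    _ = Real.sqrt (2 ^ k) * ‖x‖ := by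
        rw [EuclideanSpace.norm_eq]
        simp

/-- The basic obstruction: an operator from `ℓ_∞(Θ)` to the Euclidean block extending
`c ↦ (1_A c + U 1_A c)/2` from the `-1` eigenspace of `U` has large norm. -/
theorem obstruction (Θ : Finset (EuclideanSpace 𝕜 (Cube k))) (hΘ : ∀ θ ∈ Θ, ‖θ‖ ≤ 1)
    (R : (Θ → 𝕜) →ₗ[𝕜] EuclideanSpace 𝕜 (Cube k)) (K : ℝ) (hK0 : 0 ≤ K)
    (hK : ∀ f, ‖R f‖ ≤ K * ‖f‖) (A : Finset (Cube k))
    (hR : ∀ c : EuclideanSpace 𝕜 (Cube k), hadU 𝕜 k c = -c →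
      R (jmap Θ c) = (2⁻¹ : 𝕜) • (restr A c + hadU 𝕜 k (restr A c))) :
    (A.card : ℝ) * (2 ^ k - A.card) / (4 * 2 ^ k) ≤ 4 * K * Real.sqrt (2 ^ k) := by
  classical
  -- the vectors `v θ`
  set v : Θ → EuclideanSpace 𝕜 (Cube k) := fun θ => R (fun θ' => if θ = θ' then 1 else 0) with hv
  have hRsum : ∀ f : Θ → 𝕜, R f = ∑ θ, f θ • v θ := fun f => LinearMap.pi_apply_eq_sum_univ R f
  -- the vectors `w θ`
  set w : Θ → Cube k → 𝕜 := fun θ i => if i ∈ A then jmap Θ (minusVec 𝕜 i) θ else 0 with hw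
  have hwnorm : ∀ θ, ∑ i, ‖w θ i‖ ^ 2 ≤ 1 := by
    intro θ
    set g : EuclideanSpace 𝕜 (Cube k) := (2⁻¹ : 𝕜) • ((θ : EuclideanSpace 𝕜 (Cube k))
      - hadU 𝕜 k (θ : EuclideanSpace 𝕜 (Cube k))) with hg
    have h1 : ∀ i, jmap Θ (minusVec 𝕜 i) θ = (starRingEnd 𝕜) (g i) := by
      intro i
      have h2 : inner 𝕜 g (EuclideanSpace.single i (1 : 𝕜)) = (starRingEnd 𝕜) (g i) := by
        rw [EuclideanSpace.inner_single_right, one_mul]
      have h3 : (starRingEnd 𝕜) (2⁻¹ : 𝕜) = 2⁻¹ := by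
        rw [map_inv₀, RCLike.conj_ofNat]
      rw [← h2, hg, jmap_apply, minusVec, inner_smul_left, inner_smul_right, inner_sub_left,
        inner_sub_right, inner_hadU, h3]
    have h3 : ‖g‖ ≤ 1 := by
      rw [hg, norm_smul]
      have h4 := hΘ θ θ.2
      have h5 := norm_sub_le (θ : EuclideanSpace 𝕜 (Cube k))
        (hadU 𝕜 k (θ : EuclideanSpace 𝕜 (Cube k)))
      rw [norm_hadU] at h5
      have h6 : ‖(2⁻¹ : 𝕜)‖ = 1 / 2 := by
        rw [norm_inv, RCLike.norm_ofNat]; norm_num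
      rw [h6]
      linarith
    calc ∑ i, ‖w θ i‖ ^ 2 ≤ ∑ i, ‖g i‖ ^ 2 := by
          refine Finset.sum_le_sum fun i _ => ?_
          rw [hw]
          by_cases hi : i ∈ A
          · simp only [hi, if_true, h1]
            rw [RCLike.norm_conj]
          · simp only [hi, if_false, norm_zero]
            simp
      _ = ‖g‖ ^ 2 := by rw [EuclideanSpace.norm_sq_eq]
      _ ≤ 1 := by
          have := norm_nonneg g
          nlinarith
  choose s hs1 hs2 using fun θ => exists_riesz 𝕜 (w θ) (hwnorm θ)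
  have hcard : Fintype.card (Cube k) = 2 ^ k := by simp
  -- the trace
  have htr : (((A.card : ℝ) * (2 ^ k - A.card) / (4 * 2 ^ k) : ℝ) : 𝕜)
      = ∑ i, ∑ θ, w θ i * v θ i := by
    rw [← trace_computation (𝕜 := 𝕜) A]
    have h1 : ∀ i ∈ A,
        ((2⁻¹ : 𝕜) • (restr A (minusVec 𝕜 i) + hadU 𝕜 k (restr A (minusVec 𝕜 i)))) i
        = ∑ θ, jmap Θ (minusVec 𝕜 i) θ * v θ i := by
      intro i _
      rw [← hR _ (hadU_minusVec i), hRsum]
      simp
    rw [Finset.sum_congr rfl h1]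
    have h2 : ∀ i, ∑ θ, w θ i * v θ i
        = if i ∈ A then ∑ θ, jmap Θ (minusVec 𝕜 i) θ * v θ i else 0 := by
      intro i
      by_cases hi : i ∈ A <;> simp [hw, hi]
    simp only [h2]
    rw [Finset.sum_ite_mem, Finset.univ_inter]
  have hkey : (2 : 𝕜) ^ (Fintype.card (Cube k)) * ∑ i, ∑ θ, w θ i * v θ i
      = ∑ ε : Cube k → Bool, ∑ i, ((sgn (ε i) : ℝ) : 𝕜) * R (fun θ => s θ ε) i := by
    have h1 : ∀ (ε : Cube k → Bool) (i : Cube k), R (fun θ => s θ ε) i = ∑ θ, s θ ε * v θ i := by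
      intro ε i
      rw [hRsum]
      simp
    simp only [h1, Finset.mul_sum]
    rw [Finset.sum_comm (s := (Finset.univ : Finset (Cube k → Bool)))]
    refine Finset.sum_congr rfl fun i _ => ?_
    rw [Finset.sum_comm (s := (Finset.univ : Finset (Cube k → Bool)))]
    refine Finset.sum_congr rfl fun θ _ => ?_
    rw [← mul_assoc, ← hs2 θ i, Finset.sum_mul]
    refine Finset.sum_congr rfl fun ε _ => ?_
    ring
  have hbound : ‖∑ ε : Cube k → Bool, ∑ i, ((sgn (ε i) : ℝ) : 𝕜) * R (fun θ => s θ ε) i‖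
      ≤ 2 ^ (Fintype.card (Cube k)) * (4 * K * Real.sqrt (2 ^ k)) := by
    calc ‖∑ ε : Cube k → Bool, ∑ i, ((sgn (ε i) : ℝ) : 𝕜) * R (fun θ => s θ ε) i‖
        ≤ ∑ ε : Cube k → Bool, ‖∑ i, ((sgn (ε i) : ℝ) : 𝕜) * R (fun θ => s θ ε) i‖ :=
          norm_sum_le _ _
      _ ≤ ∑ _ε : Cube k → Bool, (4 * K * Real.sqrt (2 ^ k)) := by
          refine Finset.sum_le_sum fun ε _ => ?_
          refine (norm_sgn_sum_le ε _).trans ?_
          have h1 : ‖R (fun θ => s θ ε)‖ ≤ K * 4 := by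
            refine (hK _).trans (mul_le_mul_of_nonneg_left ?_ hK0)
            rw [pi_norm_le_iff_of_nonneg (by norm_num)]
            intro θ
            exact hs1 θ ε
          calc Real.sqrt (2 ^ k) * ‖R (fun θ => s θ ε)‖ ≤ Real.sqrt (2 ^ k) * (K * 4) :=
                mul_le_mul_of_nonneg_left h1 (Real.sqrt_nonneg _)
            _ = 4 * K * Real.sqrt (2 ^ k) := by ring
      _ = 2 ^ (Fintype.card (Cube k)) * (4 * K * Real.sqrt (2 ^ k)) := by
          rw [Finset.sum_const, nsmul_eq_mul, Finset.card_univ]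
          simp
  rw [← hkey, ← htr, norm_mul, norm_pow, RCLike.norm_ofNat, RCLike.norm_ofReal] at hbound
  have h2 : (0 : ℝ) < 2 ^ (Fintype.card (Cube k)) := by positivity
  have h3 := le_of_mul_le_mul_left hbound h2
  exact (le_abs_self _).trans h3

end Pool.Agent.Helper74
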