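import Pool.Agent.Helper74.Grunblum
import Pool.Agent.Helper74.Obstruction

set_option autoImplicit false

open Filter Topology

namespace Pool.Agent.Helper74

section Blocks

variable {𝕜 : Type} [RCLike 𝕜] {G : ℕ → Type} [∀ k, NormedAddCommGroup (G k)]
  [∀ k, NormedSpace 𝕜 (G k)] {κ : ℕ → Type} [∀ k, Fintype (κ k)] [∀ k, DecidableEq (κ k)]

/-- the vector placed in the `k`-th block of the `ℓ_2`-sum -/
noncomputable def blockVec (g : ∀ k, κ k → G k) (β : Σ k, κ k) : lp G 2 :=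
  lp.single 2 β.1 (g β.1 β.2)

theorem blockVec_sum_apply (g : ∀ k, κ k → G k) (a : (Σ k, κ k) → 𝕜) (S : Finset (Σ k, κ k))
    (k : ℕ) :
    (∑ β ∈ S, a β • blockVec g β : lp G 2) k
      = ∑ i ∈ Finset.univ.filter (fun i : κ k => (⟨k, i⟩ : Σ k, κ k) ∈ S), a ⟨k, i⟩ • g k i := by
  rw [lp.coeFn_sum, Finset.sum_apply]
  symm
  apply Finset.sum_of_injOn (fun i : κ k => (⟨k, i⟩ : Σ k, κ k))
  · intro i _ j _ hij
    simpa using hij
  · intro i hi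
    simpa using hi
  · intro β hβ hnot
    have hne : k ≠ β.1 := by
      intro h
      apply hnot
      obtain ⟨l, i⟩ := β
      subst h
      exact ⟨i, by simpa using hβ, rfl⟩
    simp only [lp.coeFn_smul, Pi.smul_apply, blockVec]
    rw [lp.single_apply_ne 2 _ _ hne, smul_zero]
  · intro i _
    simp only [lp.coeFn_smul, Pi.smul_apply, blockVec]
    rw [lp.single_apply_self]

theorem block_unconditional (g : ∀ k, κ k → G k) (C : ℝ) (hC : 0 ≤ C)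
    (hg : ∀ k (a : κ k → 𝕜) (S T : Finset (κ k)), S ⊆ T →
      ‖∑ i ∈ S, a i • g k i‖ ≤ C * ‖∑ i ∈ T, a i • g k i‖)
    (a : (Σ k, κ k) → 𝕜) (S T : Finset (Σ k, κ k)) (hST : S ⊆ T) :
    ‖∑ β ∈ S, a β • blockVec g β‖ ≤ C * ‖∑ β ∈ T, a β • blockVec g β‖ := by
  have h1 : C * ‖∑ β ∈ T, a β • blockVec g β‖
      = ‖((C : ℝ) : 𝕜) • ∑ β ∈ T, a β • blockVec g β‖ := by
    rw [norm_smul, RCLike.norm_ofReal, abs_of_nonneg hC]
  rw [h1]
  apply lp.norm_mono (by norm_num)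
  intro k
  rw [lp.coeFn_smul, Pi.smul_apply, norm_smul, RCLike.norm_ofReal, abs_of_nonneg hC,
    blockVec_sum_apply, blockVec_sum_apply]
  apply hg k (fun i => a ⟨k, i⟩)
  intro i hi
  simp only [Finset.mem_filter, Finset.mem_univ, true_and] at hi ⊢
  exact hST hi

end Blocks

section Space

variable (𝕜 : Type) [RCLike 𝕜]

/-- the norming finite set of the `k`-th Euclidean block -/
noncomputable def net (k : ℕ) : Finset (EuclideanSpace 𝕜 (Cube k)) :=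
  (exists_norming 𝕜 (EuclideanSpace 𝕜 (Cube k))).choose

theorem net_norm_le (k : ℕ) : ∀ θ ∈ net 𝕜 k, ‖θ‖ ≤ 1 :=
  (exists_norming 𝕜 (EuclideanSpace 𝕜 (Cube k))).choose_spec.2.1

theorem net_norming (k : ℕ) (b : EuclideanSpace 𝕜 (Cube k)) :
    ∃ θ ∈ net 𝕜 k, ‖b‖ ≤ 2 * ‖inner 𝕜 θ b‖ :=
  (exists_norming 𝕜 (EuclideanSpace 𝕜 (Cube k))).choose_spec.2.2 b

/-- the `k`-th block `ℓ_∞(Θ_k) ⊕_∞ ℓ_2^{2^k}` -/
abbrev Blk (k : ℕ) : Type := ((net 𝕜 k) → 𝕜) × EuclideanSpace 𝕜 (Cube k)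

theorem norm_jmap_le (k : ℕ) (b : EuclideanSpace 𝕜 (Cube k)) : ‖jmap (net 𝕜 k) b‖ ≤ ‖b‖ := by
  rw [pi_norm_le_iff_of_nonneg (norm_nonneg _)]
  intro θ
  rw [jmap_apply]
  calc ‖inner 𝕜 (θ : EuclideanSpace 𝕜 (Cube k)) b‖ ≤ ‖(θ : EuclideanSpace 𝕜 (Cube k))‖ * ‖b‖ :=
        norm_inner_le_norm _ _
    _ ≤ 1 * ‖b‖ := mul_le_mul_of_nonneg_right (net_norm_le 𝕜 k θ θ.2) (norm_nonneg _)
    _ = ‖b‖ := one_mul _

theorem norm_le_jmap (k : ℕ) (b : EuclideanSpace 𝕜 (Cube k)) :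
    ‖b‖ ≤ 2 * ‖jmap (net 𝕜 k) b‖ := by
  obtain ⟨θ, hθ, h⟩ := net_norming 𝕜 k b
  refine h.trans ?_
  have := norm_le_pi_norm (jmap (net 𝕜 k) b) ⟨θ, hθ⟩
  rw [jmap_apply] at this
  linarith

/-- the embedding of the Euclidean block as the span of the `k`-th part of the basic sequence -/
noncomputable def Ymap (k : ℕ) : EuclideanSpace 𝕜 (Cube k) →ₗ[𝕜] Blk 𝕜 k :=
  LinearMap.prod ((jmap (net 𝕜 k)).comp ((2⁻¹ : 𝕜) • (LinearMap.id - hadU 𝕜 k)))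
    ((2⁻¹ : 𝕜) • (LinearMap.id + hadU 𝕜 k))

theorem Ymap_apply (k : ℕ) (c : EuclideanSpace 𝕜 (Cube k)) :
    Ymap 𝕜 k c = (jmap (net 𝕜 k) ((2⁻¹ : 𝕜) • (c - hadU 𝕜 k c)),
      (2⁻¹ : 𝕜) • (c + hadU 𝕜 k c)) := rfl

theorem norm_half : ‖(2⁻¹ : 𝕜)‖ = 1 / 2 := by
  rw [norm_inv, RCLike.norm_ofNat]; norm_num

theorem norm_Ymap_le (k : ℕ) (c : EuclideanSpace 𝕜 (Cube k)) : ‖Ymap 𝕜 k c‖ ≤ ‖c‖ := by
  rw [Ymap_apply, Prod.norm_mk]
  apply max_le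
  · refine (norm_jmap_le 𝕜 k _).trans ?_
    rw [norm_smul, norm_half]
    have := norm_sub_le c (hadU 𝕜 k c)
    rw [norm_hadU] at this
    linarith
  · rw [norm_smul, norm_half]
    have := norm_add_le c (hadU 𝕜 k c)
    rw [norm_hadU] at this
    linarith

theorem norm_le_Ymap (k : ℕ) (c : EuclideanSpace 𝕜 (Cube k)) : ‖c‖ ≤ 3 * ‖Ymap 𝕜 k c‖ := by
  have h1 : c = (2⁻¹ : 𝕜) • (c - hadU 𝕜 k c) + (2⁻¹ : 𝕜) • (c + hadU 𝕜 k c) := by
    rw [← smul_add, sub_add_add_cancel, ← two_smul 𝕜 c, smul_smul,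
      inv_mul_cancel₀ two_ne_zero, one_smul]
  have h2 : ‖jmap (net 𝕜 k) ((2⁻¹ : 𝕜) • (c - hadU 𝕜 k c))‖ ≤ ‖Ymap 𝕜 k c‖ := by
    rw [Ymap_apply, Prod.norm_mk]; exact le_max_left _ _
  have h3 : ‖(2⁻¹ : 𝕜) • (c + hadU 𝕜 k c)‖ ≤ ‖Ymap 𝕜 k c‖ := by
    rw [Ymap_apply, Prod.norm_mk]; exact le_max_right _ _
  have h4 := norm_le_jmap 𝕜 k ((2⁻¹ : 𝕜) • (c - hadU 𝕜 k c))
  have h5 := norm_add_le ((2⁻¹ : 𝕜) • (c - hadU 𝕜 k c)) ((2⁻¹ : 𝕜) • (c + hadU 𝕜 k c))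
  rw [← h1] at h5
  linarith

/-- the Banach space of the counterexample -/
abbrev Spc : Type := lp (Blk 𝕜) 2

/-- the vectors of the basic sequence, block by block -/
noncomputable def yBlk (k : ℕ) (i : Cube k) : Blk 𝕜 k :=
  Ymap 𝕜 k (EuclideanSpace.single i (1 : 𝕜))

/-- the unit vectors of a block -/
noncomputable def eBlk (k : ℕ) (i : (net 𝕜 k) ⊕ Cube k) : Blk 𝕜 k :=
  Sum.elim (fun θ => ((Pi.single θ 1 : (net 𝕜 k) → 𝕜), (0 : EuclideanSpace 𝕜 (Cube k))))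
    (fun l => ((0 : (net 𝕜 k) → 𝕜), EuclideanSpace.single l (1 : 𝕜))) i

/-- the basic sequence, indexed by pairs -/
noncomputable def yVec : (Σ k, Cube k) → Spc 𝕜 := blockVec (yBlk 𝕜)

/-- the unit vector basis, indexed by pairs -/
noncomputable def eVec : (Σ k, ((net 𝕜 k) ⊕ Cube k)) → Spc 𝕜 := blockVec (eBlk 𝕜)

theorem sum_yBlk (k : ℕ) (a : Cube k → 𝕜) (S : Finset (Cube k)) :
    ∑ i ∈ S, a i • yBlk 𝕜 k i = Ymap 𝕜 k (restr S (WithLp.toLp 2 a)) := by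
  have h1 : restr S (WithLp.toLp 2 a : EuclideanSpace 𝕜 (Cube k))
      = ∑ i ∈ S, a i • EuclideanSpace.single i (1 : 𝕜) := by
    ext l
    rw [restr_apply]
    simp [Pi.single_apply]
  rw [h1, map_sum]
  simp [yBlk]

theorem norm_restr_mono {k : ℕ} (S T : Finset (Cube k)) (h : S ⊆ T)
    (c : EuclideanSpace 𝕜 (Cube k)) : ‖restr S c‖ ≤ ‖restr T c‖ := by
  rw [EuclideanSpace.norm_eq, EuclideanSpace.norm_eq]
  apply Real.sqrt_le_sqrt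
  refine Finset.sum_le_sum fun i _ => ?_
  rw [restr_apply, restr_apply]
  by_cases hS : i ∈ S
  · rw [if_pos hS, if_pos (h hS)]
  · rw [if_neg hS]
    simp

theorem yVec_unconditional (a : (Σ k, Cube k) → 𝕜) (S T : Finset (Σ k, Cube k)) (h : S ⊆ T) :
    ‖∑ β ∈ S, a β • yVec 𝕜 β‖ ≤ 3 * ‖∑ β ∈ T, a β • yVec 𝕜 β‖ := by
  apply block_unconditional (yBlk 𝕜) 3 (by norm_num) _ a S T h
  intro k a S T h
  rw [sum_yBlk, sum_yBlk]
  calc ‖Ymap 𝕜 k (restr S (WithLp.toLp 2 a))‖ ≤ ‖restr S (WithLp.toLp 2 a)‖ :=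
        norm_Ymap_le 𝕜 k _
    _ ≤ ‖restr T (WithLp.toLp 2 a)‖ := norm_restr_mono 𝕜 S T h _
    _ ≤ 3 * ‖Ymap 𝕜 k (restr T (WithLp.toLp 2 a))‖ := norm_le_Ymap 𝕜 k _

theorem yVec_ne_zero (β : Σ k, Cube k) : yVec 𝕜 β ≠ 0 := by
  intro h
  have h1 : (yVec 𝕜 β : lp (Blk 𝕜) 2) β.1 = yBlk 𝕜 β.1 β.2 := by
    unfold yVec blockVec
    rw [lp.single_apply_self]
  rw [h] at h1
  have h2 : yBlk 𝕜 β.1 β.2 = 0 := by rw [← h1]; rfl
  have h3 := norm_le_Ymap 𝕜 β.1 (EuclideanSpace.single β.2 (1 : 𝕜))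
  have h4 : Ymap 𝕜 β.1 (EuclideanSpace.single β.2 (1 : 𝕜)) = 0 := h2
  rw [h4] at h3
  simp at h3
  linarith

open Classical in
theorem sum_eBlk (k : ℕ) (a : (net 𝕜 k) ⊕ Cube k → 𝕜) (S : Finset ((net 𝕜 k) ⊕ Cube k)) :
    ∑ i ∈ S, a i • eBlk 𝕜 k i
      = ((fun θ => if Sum.inl θ ∈ S then a (Sum.inl θ) else 0),
        WithLp.toLp 2 (fun l => if Sum.inr l ∈ S then a (Sum.inr l) else 0)) := by
  have h1 : ∑ i ∈ S, a i • eBlk 𝕜 k i
      = ∑ i : (net 𝕜 k) ⊕ Cube k, (if i ∈ S then a i • eBlk 𝕜 k i else 0) := by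
    rw [Finset.sum_ite_mem, Finset.univ_inter]
  rw [h1, Fintype.sum_sum_type]
  apply Prod.ext
  · funext θ
    rw [Prod.fst_add, Prod.fst_sum, Prod.fst_sum, Pi.add_apply, Finset.sum_apply,
      Finset.sum_apply, Finset.sum_eq_single θ, Finset.sum_eq_zero]
    · by_cases hS : Sum.inl θ ∈ S <;> simp [eBlk, hS]
    · intro l _
      split_ifs <;> simp [eBlk]
    · intro θ' _ hne
      split_ifs <;> simp [eBlk, hne.symm]
    · intro h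
      exact absurd (Finset.mem_univ θ) h
  · ext l
    rw [Prod.snd_add, Prod.snd_sum, Prod.snd_sum, PiLp.add_apply, WithLp.ofLp_sum,
      WithLp.ofLp_sum, Finset.sum_apply, Finset.sum_apply, add_comm, Finset.sum_eq_single l,
      Finset.sum_eq_zero]
    · by_cases hS : Sum.inr l ∈ S <;> simp [eBlk, hS]
    · intro l _
      split_ifs <;> simp [eBlk]
    · intro θ' _ hne
      split_ifs <;> simp [eBlk, hne.symm]
    · intro h
      exact absurd (Finset.mem_univ l) h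

theorem eVec_unconditional (a : (Σ k, ((net 𝕜 k) ⊕ Cube k)) → 𝕜)
    (S T : Finset (Σ k, ((net 𝕜 k) ⊕ Cube k))) (h : S ⊆ T) :
    ‖∑ β ∈ S, a β • eVec 𝕜 β‖ ≤ 1 * ‖∑ β ∈ T, a β • eVec 𝕜 β‖ := by
  classical
  apply block_unconditional (eBlk 𝕜) 1 (by norm_num) _ a S T h
  intro k a S T h
  rw [sum_eBlk, sum_eBlk, Prod.norm_mk, Prod.norm_mk, one_mul]
  apply max_le_max
  · rw [pi_norm_le_iff_of_nonneg (norm_nonneg _)]
    intro θ
    refine le_trans ?_ (norm_le_pi_norm _ θ)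
    by_cases hS : Sum.inl θ ∈ S
    · rw [if_pos hS, if_pos (h hS)]
    · rw [if_neg hS]; simp
  · rw [EuclideanSpace.norm_eq, EuclideanSpace.norm_eq]
    apply Real.sqrt_le_sqrt
    refine Finset.sum_le_sum fun i _ => ?_
    by_cases hS : Sum.inr i ∈ S
    · simp only [hS, h hS, if_true]; exact le_rfl
    · simp [hS]

theorem eVec_ne_zero (β : Σ k, ((net 𝕜 k) ⊕ Cube k)) : eVec 𝕜 β ≠ 0 := by
  classical
  intro h
  have h1 : (eVec 𝕜 β : lp (Blk 𝕜) 2) β.1 = eBlk 𝕜 β.1 β.2 := by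
    unfold eVec blockVec
    rw [lp.single_apply_self]
  rw [h] at h1
  have h2 : eBlk 𝕜 β.1 β.2 = 0 := by rw [← h1]; rfl
  obtain ⟨k, β | l⟩ := β
  · have h3 := congrFun (congrArg Prod.fst h2) β
    simp [eBlk] at h3
  · have h3 := congrArg (fun v : Blk 𝕜 k => v.2 l) h2
    simp [eBlk] at h3

theorem eVec_dense (x : Spc 𝕜) :
    x ∈ (Submodule.span 𝕜 (Set.range (eVec 𝕜))).topologicalClosure := by
  classical
  have h1 : HasSum (fun k => (lp.single 2 k (x k) : lp (Blk 𝕜) 2)) x :=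
    lp.hasSum_single (by norm_num) x
  have hsingle : ∀ k (z : Blk 𝕜 k), (lp.single 2 k z : lp (Blk 𝕜) 2) ∈
      Submodule.span 𝕜 (Set.range (eVec 𝕜)) := by
    intro k z
    have h2 : z = ∑ i : (net 𝕜 k) ⊕ Cube k, (Sum.elim z.1 (fun l => z.2 l) i) • eBlk 𝕜 k i := by
      rw [sum_eBlk]
      simp
    have h3 : (lp.single 2 k z : lp (Blk 𝕜) 2)
        = ∑ i : (net 𝕜 k) ⊕ Cube k, (Sum.elim z.1 (fun l => z.2 l) i) • eVec 𝕜 ⟨k, i⟩ := by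
      conv_lhs => rw [h2]
      have h4 := map_sum (lp.lsingle (𝕜 := 𝕜) (E := Blk 𝕜) 2 k)
        (fun i => (Sum.elim z.1 (fun l => z.2 l) i) • eBlk 𝕜 k i) Finset.univ
      simp only [map_smul] at h4
      exact h4
    rw [h3]
    refine Submodule.sum_mem _ fun i _ => Submodule.smul_mem _ _ (Submodule.subset_span ⟨_, rfl⟩)
  refine mem_closure_of_tendsto (f := fun s : Finset ℕ => ∑ k ∈ s, (lp.single 2 k (x k) :
    lp (Blk 𝕜) 2)) h1 (Eventually.of_forall fun s => ?_)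
  exact Submodule.sum_mem _ fun k _ => hsingle k _

end Space

end Pool.Agent.Helper74
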