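import Mathlib

set_option autoImplicit false

open Filter Topology Set

namespace Pool.Agent.Helper74

/-- the Hilbert space `ℓ_2` -/
abbrev ell2 : Type := lp (fun _ : ℕ => ℝ) 2

theorem not_finiteDimensional_ell2 : ¬ FiniteDimensional ℝ ell2 := by
  intro h
  have h1 : Orthonormal ℝ (fun i : ℕ => (lp.single 2 i (1 : ℝ) : ell2)) := by
    rw [orthonormal_iff_ite]
    intro i j
    rw [lp.inner_single_left, lp.single_apply]
    by_cases hij : i = j
    · subst hij; simp
    · simp [hij]
  exact Module.Finite.not_linearIndependent_of_infinite _ h1.linearIndependent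

instance : TopologicalSpace.SeparableSpace ell2 := by
  have h1 : TopologicalSpace.IsSeparable
      ((Submodule.span ℝ (range fun i : ℕ => (lp.single 2 i (1 : ℝ) : ell2)) : Submodule ℝ ell2) :
        Set ell2) :=
    (Set.countable_range _).isSeparable.span
  have h2 : closure ((Submodule.span ℝ (range fun i : ℕ => (lp.single 2 i (1 : ℝ) : ell2)) :
      Submodule ℝ ell2) : Set ell2) = univ := by
    rw [eq_univ_iff_forall]
    intro x
    have h3 : HasSum (fun i => (lp.single 2 i (x i) : ell2)) x :=
      lp.hasSum_single (by norm_num) x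
    refine mem_closure_of_tendsto (f := fun s : Finset ℕ => ∑ i ∈ s, (lp.single 2 i (x i) : ell2))
      h3 (Eventually.of_forall fun s => ?_)
    refine Submodule.sum_mem _ fun i _ => ?_
    have h4 : (lp.single 2 i (x i) : ell2) = x i • (lp.single 2 i (1 : ℝ) : ell2) := by
      rw [← lp.single_smul, smul_eq_mul, mul_one]
    rw [h4]
    exact Submodule.smul_mem _ _ (Submodule.subset_span ⟨i, rfl⟩)
  have h5 := h1.closure
  rw [h2] at h5
  exact TopologicalSpace.isSeparable_univ_iff.mp h5

end Pool.Agent.Helper74
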