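import Pool.Agent.Helper74.SchauderBasics

set_option autoImplicit false

open Filter Topology

namespace Pool.Agent.Helper74

variable {𝕜 E : Type*} [RCLike 𝕜] [NormedAddCommGroup E] [NormedSpace 𝕜 E]

/-- `y` is a basic sequence: it is a Schauder basis of its closed linear span, i.e. every vector
of the closed linear span has a unique norm convergent expansion along `y`. -/
def IsBasicSequence (𝕜 : Type*) {E : Type*} [RCLike 𝕜] [NormedAddCommGroup E] [NormedSpace 𝕜 E]
    (y : ℕ → E) : Prop :=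
  ∀ x ∈ (Submodule.span 𝕜 (Set.range y)).topologicalClosure,
    ∃! a : ℕ → 𝕜, Tendsto (fun n => ∑ k ∈ Finset.range n, a k • y k) atTop (𝓝 x)

theorem isSchauderBasis_of_dense {y : ℕ → E} (h : IsBasicSequence 𝕜 y)
    (hd : ∀ x : E, x ∈ (Submodule.span 𝕜 (Set.range y)).topologicalClosure) :
    IsSchauderBasis 𝕜 y := fun x => h x (hd x)

/-- elements of the span of a sequence are finite sums over initial segments -/
theorem exists_sum_range_of_mem_span {y : ℕ → E} {z : E}
    (hz : z ∈ Submodule.span 𝕜 (Set.range y)) :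
    ∃ (a : ℕ → 𝕜) (m : ℕ), (∀ k, m ≤ k → a k = 0) ∧
      ∀ n, m ≤ n → ∑ k ∈ Finset.range n, a k • y k = z := by
  obtain ⟨c, hc⟩ := Finsupp.mem_span_range_iff_exists_finsupp.mp hz
  obtain ⟨m, hm⟩ : ∃ m : ℕ, ∀ k ∈ c.support, k < m := by
    refine ⟨c.support.sup id + 1, fun k hk => ?_⟩
    have : k ≤ c.support.sup id := Finset.le_sup (f := id) hk
    omega
  refine ⟨c, m, ?_, ?_⟩
  · intro k hk
    by_contra hne
    have := hm k (Finsupp.mem_support_iff.mpr hne)
    omega
  · intro n hn
    rw [← hc, Finsupp.sum_of_support_subset (s := Finset.range n)]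
    · intro k hk
      exact Finset.mem_range.mpr ((hm k hk).trans_le hn)
    · intro i _
      simp

/-- Grunblum's criterion for basic sequences. -/
theorem grunblum {y : ℕ → E} (hy : ∀ n, y n ≠ 0) (K : ℝ)
    (h : ∀ (a : ℕ → 𝕜) (n m : ℕ), n ≤ m →
      ‖∑ k ∈ Finset.range n, a k • y k‖ ≤ K * ‖∑ k ∈ Finset.range m, a k • y k‖) :
    IsBasicSequence 𝕜 y := by
  -- if a series converges then its partial sums are controlled by the limit
  have hlimbound : ∀ (a : ℕ → 𝕜) (x : E) (n : ℕ),
      Tendsto (fun n => ∑ k ∈ Finset.range n, a k • y k) atTop (𝓝 x) →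
      ‖∑ k ∈ Finset.range n, a k • y k‖ ≤ K * ‖x‖ := by
    intro a x n ha
    have h1 : Tendsto (fun m => K * ‖∑ k ∈ Finset.range m, a k • y k‖) atTop (𝓝 (K * ‖x‖)) :=
      (ha.norm).const_mul K
    refine ge_of_tendsto h1 ?_
    filter_upwards [eventually_ge_atTop n] with m hm
    exact h a n m hm
  have hcoefzero : ∀ (a : ℕ → 𝕜), (∀ n, ∑ k ∈ Finset.range n, a k • y k = 0) → a = 0 := by
    intro a ha
    funext n
    have h1 := ha (n + 1)
    rw [Finset.sum_range_succ, ha n, zero_add] at h1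
    exact (smul_eq_zero.mp h1).resolve_right (hy n)
  intro x hx
  -- approximating sequence
  have hx' : x ∈ closure ((Submodule.span 𝕜 (Set.range y) : Submodule 𝕜 E) : Set E) := hx
  obtain ⟨z, hzmem, hzlim⟩ := mem_closure_iff_seq_limit.mp hx'
  choose a m ham hsum using fun k => exists_sum_range_of_mem_span (hzmem k)
  -- difference estimates
  have hdiff : ∀ k l n, ‖∑ i ∈ Finset.range n, (a k i - a l i) • y i‖ ≤ K * ‖z k - z l‖ := by
    intro k l n
    set N := max n (max (m k) (m l)) with hN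
    have h1 := h (fun i => a k i - a l i) n N (le_max_left _ _)
    have h2 : ∑ i ∈ Finset.range N, (a k i - a l i) • y i = z k - z l := by
      rw [← hsum k N ((le_max_left _ _).trans (le_max_right _ _)),
        ← hsum l N ((le_max_right _ _).trans (le_max_right _ _)), ← Finset.sum_sub_distrib]
      simp [sub_smul]
    rw [h2] at h1
    exact h1
  have hKnn : 0 ≤ K := by
    have h0 := h (fun _ => 1) 1 1 le_rfl
    have hpos : 0 < ‖∑ k ∈ Finset.range 1, (1 : 𝕜) • y k‖ := by
      simpa using hy 0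
    by_contra hneg
    push Not at hneg
    nlinarith
  have hzc : CauchySeq z := hzlim.cauchySeq
  have hterm : ∀ k l i, ‖(a k i - a l i) • y i‖ ≤ 2 * K * ‖z k - z l‖ := by
    intro k l i
    have h1 := hdiff k l (i + 1)
    have h2 := hdiff k l i
    rw [Finset.sum_range_succ] at h1
    have h3 : ‖(a k i - a l i) • y i‖ ≤
        ‖∑ i ∈ Finset.range i, (a k i - a l i) • y i + (a k i - a l i) • y i‖
          + ‖∑ i ∈ Finset.range i, (a k i - a l i) • y i‖ := by
      have := norm_sub_le (∑ i ∈ Finset.range i, (a k i - a l i) • y i + (a k i - a l i) • y i)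
        (∑ i ∈ Finset.range i, (a k i - a l i) • y i)
      simpa using this
    linarith
  have hcauchy : ∀ i, CauchySeq (fun k => a k i) := by
    intro i
    rw [Metric.cauchySeq_iff']
    intro ε hε
    have hyi : 0 < ‖y i‖ := norm_pos_iff.mpr (hy i)
    obtain ⟨N, hN⟩ := (Metric.cauchySeq_iff'.mp hzc) (ε * ‖y i‖ / (2 * K + 1)) (by positivity)
    refine ⟨N, fun n hn => ?_⟩
    have h1 := hN n hn
    rw [dist_eq_norm] at h1 ⊢
    have h2 := hterm n N i
    rw [norm_smul] at h2
    have h3 : 2 * K * ‖z n - z N‖ < ε * ‖y i‖ := by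
      have h4 : (2 * K + 1) * ‖z n - z N‖ < ε * ‖y i‖ := by
        rw [lt_div_iff₀ (by positivity)] at h1
        linarith
      have h5 : 0 ≤ ‖z n - z N‖ := norm_nonneg _
      linarith
    have h6 : ‖a n i - a N i‖ * ‖y i‖ < ε * ‖y i‖ := lt_of_le_of_lt h2 h3
    exact lt_of_mul_lt_mul_right h6 hyi.le
  choose b hb using fun i => cauchySeq_tendsto_of_complete (hcauchy i)
  have hlimdiff : ∀ k n, ‖∑ i ∈ Finset.range n, (a k i - b i) • y i‖ ≤ K * ‖z k - x‖ := by
    intro k n
    have h1 : Tendsto (fun l => ‖∑ i ∈ Finset.range n, (a k i - a l i) • y i‖) atTop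
        (𝓝 ‖∑ i ∈ Finset.range n, (a k i - b i) • y i‖) := by
      apply Tendsto.norm
      apply tendsto_finsetSum
      intro i _
      exact (tendsto_const_nhds.sub (hb i)).smul_const _
    have h2 : Tendsto (fun l => K * ‖z k - z l‖) atTop (𝓝 (K * ‖z k - x‖)) :=
      ((tendsto_const_nhds.sub hzlim).norm).const_mul K
    exact le_of_tendsto_of_tendsto' h1 h2 (fun l => hdiff k l n)
  have hconv : Tendsto (fun n => ∑ k ∈ Finset.range n, b k • y k) atTop (𝓝 x) := by
    rw [Metric.tendsto_atTop]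
    intro ε hε
    obtain ⟨k, hk⟩ := ((Metric.tendsto_nhds.mp hzlim) (ε / (K + 1)) (by positivity)).exists
    refine ⟨m k, fun n hn => ?_⟩
    rw [dist_eq_norm] at hk ⊢
    have h1 := hlimdiff k n
    have h2 : ∑ i ∈ Finset.range n, (a k i - b i) • y i
        = z k - ∑ i ∈ Finset.range n, b i • y i := by
      rw [← hsum k n hn, ← Finset.sum_sub_distrib]
      simp [sub_smul]
    rw [h2] at h1
    calc ‖∑ i ∈ Finset.range n, b i • y i - x‖
        = ‖(z k - x) - (z k - ∑ i ∈ Finset.range n, b i • y i)‖ := by congr 1; abel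
      _ ≤ ‖z k - x‖ + ‖z k - ∑ i ∈ Finset.range n, b i • y i‖ := norm_sub_le _ _
      _ ≤ ‖z k - x‖ + K * ‖z k - x‖ := by linarith
      _ = (K + 1) * ‖z k - x‖ := by ring
      _ < ε := by
          rw [lt_div_iff₀ (by positivity)] at hk
          linarith
  refine ⟨b, hconv, ?_⟩
  intro c hc
  have h1 : Tendsto (fun n => ∑ k ∈ Finset.range n, (c k - b k) • y k) atTop (𝓝 0) := by
    have := Tendsto.sub hc hconv
    rw [sub_self] at this
    refine this.congr fun n => ?_
    rw [← Finset.sum_sub_distrib]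
    simp [sub_smul]
  have h2 : ∀ n, ∑ k ∈ Finset.range n, (c k - b k) • y k = 0 := by
    intro n
    have := hlimbound (fun k => c k - b k) 0 n h1
    simpa using this
  have h3 := hcoefzero _ h2
  funext k
  have := congrFun h3 k
  exact sub_eq_zero.mp this

/-- An unconditional family, enumerated in any order, is a basic sequence. -/
theorem isBasicSequence_of_unconditional {ι : Type*} {y : ι → E} (hy : ∀ i, y i ≠ 0) (K : ℝ)
    (h : ∀ (a : ι → 𝕜) (S T : Finset ι), S ⊆ T →
      ‖∑ i ∈ S, a i • y i‖ ≤ K * ‖∑ i ∈ T, a i • y i‖) (e : ℕ ≃ ι) :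
    IsBasicSequence 𝕜 (fun n => y (e n)) := by
  apply grunblum (fun n => hy _) K
  intro a n m hnm
  have key : ∀ n, ∑ k ∈ Finset.range n, a k • y (e k)
      = ∑ i ∈ (Finset.range n).map e.toEmbedding, a (e.symm i) • y i := by
    intro n
    rw [Finset.sum_map]
    simp
  rw [key n, key m]
  apply h
  exact Finset.map_subset_map.mpr (Finset.range_mono hnm)

end Pool.Agent.Helper74
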