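import Pool.Agent.Helper74.Polyhedral

set_option autoImplicit false

open Filter Topology Set

namespace Pool.Agent.Helper74

section Hilbert

variable {H : Type*} [NormedAddCommGroup H] [InnerProductSpace ℝ H] [CompleteSpace H]

/-- the states of the greedy construction: a point `s` and a finite dimensional subspace `W`
containing it -/
structure GState (H : Type*) [NormedAddCommGroup H] [InnerProductSpace ℝ H] where
  /-- the current point -/
  pt : H
  /-- the current subspace -/
  sub : Submodule ℝ H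
  fin : FiniteDimensional ℝ sub
  mem : pt ∈ sub

/-- In an infinite dimensional Hilbert space no equivalent norm `p` has a countable boundary. -/
theorem no_countable_boundary_seq (hinf : ¬ FiniteDimensional ℝ H) (p : H → ℝ) (c C : ℝ)
    (hc : 0 < c) (hlow : ∀ x, c * ‖x‖ ≤ p x) (hupp : ∀ x, p x ≤ C * ‖x‖)
    (hadd : ∀ x y, p (x + y) ≤ p x + p y) (hsmul : ∀ (r : ℝ) x, p (r • x) = |r| * p x)
    (a : ℕ → H) (ha : ∀ i x, inner ℝ (a i) x ≤ p x)
    (hbd : ∀ x, ∃ i, inner ℝ (a i) x = p x) : False := by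
  classical
  have hp0 : p 0 = 0 := by
    have := hsmul 0 0
    simpa using this
  have hC : 0 ≤ C := by
    obtain ⟨x, hx⟩ : ∃ x : H, x ≠ 0 := by
      by_contra h
      push Not at h
      apply hinf
      have : Subsingleton H := ⟨fun x y => by rw [h x, h y]⟩
      infer_instance
    have h1 := hlow x
    have h2 := hupp x
    have h3 : 0 < ‖x‖ := norm_pos_iff.mpr hx
    have h4 : 0 < c * ‖x‖ := mul_pos hc h3
    by_contra hneg
    push Not at hneg
    nlinarith
  -- one step of the construction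
  have hstep : ∀ (st : GState H), p st.pt < 1 → ∃ n : H, n ∈ st.subᗮ ∧ p (st.pt + n) < 1 ∧
      ∀ n' ∈ st.subᗮ, p (st.pt + n') < 1 → ‖n'‖ ≤ 2 * ‖n‖ := by
    intro st hst
    set S : Set ℝ := {r | ∃ n ∈ st.subᗮ, p (st.pt + n) < 1 ∧ r = ‖n‖} with hS
    have hbdd : BddAbove S := by
      refine ⟨1 / c + ‖st.pt‖, ?_⟩
      rintro r ⟨n, _, hn, rfl⟩
      have h1 := hlow (st.pt + n)
      have h2 : ‖n‖ ≤ ‖st.pt + n‖ + ‖st.pt‖ := by
        have := norm_sub_le (st.pt + n) st.pt
        simpa using this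
      have h3 : ‖st.pt + n‖ ≤ 1 / c := by
        rw [le_div_iff₀ hc]; linarith
      linarith
    have h0S : (0 : ℝ) ∈ S := ⟨0, Submodule.zero_mem _, by simpa using hst, by simp⟩
    have hsup0 : 0 ≤ sSup S := le_csSup hbdd h0S
    rcases hsup0.eq_or_lt with h | h
    · refine ⟨0, Submodule.zero_mem _, by simpa using hst, fun n' hn' hpn' => ?_⟩
      have := le_csSup hbdd (show ‖n'‖ ∈ S from ⟨n', hn', hpn', rfl⟩)
      rw [← h] at this
      simpa using this
    · obtain ⟨r, ⟨n, hn, hpn, rfl⟩, hr⟩ := exists_lt_of_lt_csSup ⟨0, h0S⟩ (half_lt_self h)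
      refine ⟨n, hn, hpn, fun n' hn' hpn' => ?_⟩
      have := le_csSup hbdd (show ‖n'‖ ∈ S from ⟨n', hn', hpn', rfl⟩)
      linarith
  choose! nx hnx1 hnx2 hnx3 using hstep
  -- the sequence of states
  let step : ℕ → GState H → GState H := fun k st =>
    { pt := st.pt + nx st
      sub := st.sub ⊔ Submodule.span ℝ {nx st, a k}
      fin := by
        have := st.fin
        have : FiniteDimensional ℝ (Submodule.span ℝ {nx st, a k}) :=
          FiniteDimensional.span_of_finite ℝ (Set.toFinite _)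
        infer_instance
      mem := by
        apply Submodule.add_mem
        · exact Submodule.mem_sup_left st.mem
        · exact Submodule.mem_sup_right (Submodule.subset_span (by simp)) }
  let st : ℕ → GState H := fun k => Nat.rec
    { pt := 0, sub := ⊥, fin := inferInstance, mem := Submodule.zero_mem _ }
    (fun k s => step k s) k
  have hst_succ : ∀ k, st (k + 1) = step k (st k) := fun k => rfl
  have hst0 : (st 0).pt = 0 := rfl
  set s : ℕ → H := fun k => (st k).pt with hs
  set x : ℕ → H := fun k => nx (st k) with hx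
  have hs_succ : ∀ k, s (k + 1) = s k + x k := fun k => rfl
  have hp1 : ∀ k, p (s k) < 1 := by
    intro k
    induction k with
    | zero =>
      change p 0 < 1
      rw [hp0]; exact one_pos
    | succ k ih => exact hnx2 (st k) ih
  have hxperp : ∀ k, x k ∈ (st k).subᗮ := fun k => hnx1 (st k) (hp1 k)
  have hmono : ∀ k l, k ≤ l → (st k).sub ≤ (st l).sub := by
    intro k l hkl
    induction l, hkl using Nat.le_induction with
    | base => exact le_rfl
    | succ l _ ih => exact ih.trans le_sup_left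
  have hamem : ∀ k l, k < l → a k ∈ (st l).sub := by
    intro k l hkl
    apply hmono (k + 1) l hkl
    exact Submodule.mem_sup_right (Submodule.subset_span (by simp))
  have hsmem : ∀ k, s k ∈ (st k).sub := fun k => (st k).mem
  -- differences are orthogonal to earlier points
  have hdiff : ∀ k l, k ≤ l → s l - s k ∈ (st k).subᗮ := by
    intro k l hkl
    induction l, hkl using Nat.le_induction with
    | base => rw [sub_self]; exact Submodule.zero_mem _
    | succ l hl ih =>
      have : s (l + 1) - s k = (s l - s k) + x l := by rw [hs_succ]; abel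
      rw [this]
      exact Submodule.add_mem _ ih (Submodule.orthogonal_le (hmono k l hl) (hxperp l))
  have hpyth : ∀ k l, k ≤ l → ‖s l‖ ^ 2 = ‖s k‖ ^ 2 + ‖s l - s k‖ ^ 2 := by
    intro k l hkl
    have h1 : inner ℝ (s k) (s l - s k) = 0 :=
      (Submodule.mem_orthogonal _ _).mp (hdiff k l hkl) (s k) (hsmem k)
    have h2 := norm_add_sq_real (s k) (s l - s k)
    rw [h1, mul_zero, add_zero] at h2
    rw [← h2]
    congr 2
    abel
  have hbound : ∀ k, ‖s k‖ ^ 2 ≤ (1 / c) ^ 2 := by
    intro k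
    have h1 := hlow (s k)
    have h2 := hp1 k
    have h3 : ‖s k‖ ≤ 1 / c := by
      rw [le_div_iff₀ hc]; linarith
    exact pow_le_pow_left₀ (norm_nonneg _) h3 2
  have hmonosq : Monotone (fun k => ‖s k‖ ^ 2) := by
    intro k l hkl
    have := hpyth k l hkl
    simp only
    have h2 : 0 ≤ ‖s l - s k‖ ^ 2 := by positivity
    linarith
  obtain ⟨L, hL⟩ : ∃ L, Tendsto (fun k => ‖s k‖ ^ 2) atTop (𝓝 L) :=
    ⟨_, tendsto_atTop_ciSup hmonosq ⟨(1 / c) ^ 2, by rintro _ ⟨k, rfl⟩; exact hbound k⟩⟩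
  have hcauchy : CauchySeq s := by
    rw [Metric.cauchySeq_iff']
    intro ε hε
    have h1 := (Metric.cauchySeq_iff'.mp hL.cauchySeq) (ε ^ 2) (by positivity)
    obtain ⟨N, hN⟩ := h1
    refine ⟨N, fun n hn => ?_⟩
    have h2 := hN n hn
    rw [Real.dist_eq] at h2
    have h3 := hpyth N n hn
    have h4 : ‖s n - s N‖ ^ 2 < ε ^ 2 := by
      have := le_abs_self (‖s n‖ ^ 2 - ‖s N‖ ^ 2)
      linarith
    rw [dist_eq_norm]
    exact lt_of_pow_lt_pow_left₀ 2 hε.le h4
  obtain ⟨z, hz⟩ := cauchySeq_tendsto_of_complete hcauchy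
  have hxlim : Tendsto (fun k => ‖x k‖) atTop (𝓝 0) := by
    have h1 : Tendsto (fun k => s (k + 1) - s k) atTop (𝓝 (z - z)) :=
      (hz.comp (tendsto_add_atTop_nat 1)).sub hz
    rw [sub_self] at h1
    have h2 := h1.norm
    rw [norm_zero] at h2
    refine h2.congr fun k => ?_
    rw [hs_succ, add_sub_cancel_left]
  -- `p` is Lipschitz
  have hplip : ∀ u v, p u ≤ p v + C * ‖u - v‖ := by
    intro u v
    have h1 := hadd v (u - v)
    rw [add_sub_cancel] at h1
    linarith [hupp (u - v)]
  have hpz1 : p z ≤ 1 := by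
    by_contra hlt
    push Not at hlt
    obtain ⟨N, hN⟩ := (Metric.tendsto_atTop.mp hz) ((p z - 1) / (C + 1))
      (div_pos (by linarith) (by linarith))
    have h1 := hN N le_rfl
    rw [dist_comm, dist_eq_norm, lt_div_iff₀ (by linarith)] at h1
    have h2 := hplip z (s N)
    have h3 := hp1 N
    have h4 : 0 ≤ ‖z - s N‖ := norm_nonneg _
    nlinarith
  obtain ⟨i, hi⟩ := hbd z
  -- the functional `a i` is constant along the tail of the sequence
  have hconst : inner ℝ (a i) z = inner ℝ (a i) (s (i + 1)) := by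
    have h1 : Tendsto (fun k => inner ℝ (a i) (s k)) atTop (𝓝 (inner ℝ (a i) z)) :=
      (Continuous.tendsto (by fun_prop : Continuous fun y : H => inner ℝ (a i) y) z).comp hz
    have h2 : Tendsto (fun _ : ℕ => inner ℝ (a i) (s (i + 1))) atTop (𝓝 (inner ℝ (a i) z)) := by
      refine h1.congr' ?_
      filter_upwards [eventually_ge_atTop (i + 1)] with k hk
      have h3 : inner ℝ (a i) (s k - s (i + 1)) = 0 :=
        (Submodule.mem_orthogonal _ _).mp (hdiff (i + 1) k hk) (a i)
          (hamem i (i + 1) (Nat.lt_succ_self i))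
      rw [inner_sub_right] at h3
      linarith
    exact (tendsto_nhds_unique h2 tendsto_const_nhds)
  have hpz_lt : p z < 1 := by
    rw [← hi, hconst]
    exact lt_of_le_of_lt (ha i (s (i + 1))) (hp1 (i + 1))
  -- but then the increments do not tend to zero
  set ρ : ℝ := (1 - p z) / (2 * (C + 1)) with hρ
  have hρ0 : 0 < ρ := div_pos (by linarith) (by linarith)
  have hρC : ρ * (2 * (C + 1)) = 1 - p z := div_mul_cancel₀ _ (by linarith)
  obtain ⟨N1, hN1⟩ := (Metric.tendsto_atTop.mp hz) ρ hρ0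
  obtain ⟨N2, hN2⟩ := (Metric.tendsto_atTop.mp hxlim) (ρ / 2) (by positivity)
  set N := max N1 N2 with hNdef
  have h1 := hN1 N (le_max_left _ _)
  have h2 := hN2 N (le_max_right _ _)
  rw [dist_eq_norm] at h1
  rw [dist_zero_right, norm_norm] at h2
  -- a vector of norm `ρ` orthogonal to the `N`-th subspace
  have := (st N).fin
  have hne : (st N).subᗮ ≠ ⊥ := by
    intro hbot
    have htop : (st N).sub = ⊤ := (Submodule.orthogonal_eq_bot_iff).mp hbot
    apply hinf
    have h3 := (st N).fin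
    rw [htop] at h3
    exact (Submodule.topEquiv : (⊤ : Submodule ℝ H) ≃ₗ[ℝ] H).finiteDimensional
  obtain ⟨w, hw, hw0⟩ := Submodule.exists_mem_ne_zero_of_ne_bot hne
  have hwn : 0 < ‖w‖ := norm_pos_iff.mpr hw0
  set n : H := (ρ / ‖w‖) • w with hn
  have hnn : ‖n‖ = ρ := by
    rw [hn, norm_smul, Real.norm_of_nonneg (by positivity), div_mul_cancel₀ _ hwn.ne']
  have hnmem : n ∈ (st N).subᗮ := Submodule.smul_mem _ _ hw
  have hpn : p ((st N).pt + n) < 1 := by
    change p (s N + n) < 1
    have h3 := hplip (s N + n) z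
    have h4 : ‖s N + n - z‖ ≤ ‖s N - z‖ + ‖n‖ := by
      have : s N + n - z = (s N - z) + n := by abel
      rw [this]; exact norm_add_le _ _
    rw [hnn] at h4
    have h5 : C * ‖s N + n - z‖ ≤ C * (2 * ρ) :=
      mul_le_mul_of_nonneg_left (by linarith) hC
    nlinarith
  have h6 := hnx3 (st N) (hp1 N) n hnmem hpn
  rw [hnn] at h6
  have h7 : ‖nx (st N)‖ = ‖x N‖ := rfl
  rw [h7] at h6
  linarith

/-- An infinite dimensional separable Hilbert space is not isomorphic to a polyhedral Banach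
space. -/
theorem not_polyhedral_of_equiv [TopologicalSpace.SeparableSpace H]
    (hinf : ¬ FiniteDimensional ℝ H) {Z : Type*} [NormedAddCommGroup Z] [NormedSpace ℝ Z]
    [CompleteSpace Z] (hZ : IsPolyhedral Z) (T : H ≃L[ℝ] Z) : False := by
  have hsep : TopologicalSpace.SeparableSpace Z :=
    T.surjective.denseRange.separableSpace T.continuous
  obtain ⟨Γ, hΓc, hΓ1, hΓ2⟩ := exists_countable_boundary hZ
  obtain ⟨f0, hf0, _⟩ := hΓ2 0
  obtain ⟨f, hf⟩ := hΓc.exists_eq_range ⟨f0, hf0⟩
  -- `p x = ‖T x‖`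
  have hTpos : 0 < ‖(T.symm : Z →L[ℝ] H)‖ + 1 := by positivity
  set c : ℝ := 1 / (‖(T.symm : Z →L[ℝ] H)‖ + 1) with hc
  refine no_countable_boundary_seq hinf (fun x => ‖T x‖) c ‖(T : H →L[ℝ] Z)‖ (by positivity)
    ?_ ?_ ?_ ?_ (fun i => (InnerProductSpace.toDual ℝ H).symm ((f i).comp (T : H →L[ℝ] Z))) ?_ ?_
  · intro x
    have h1 : ‖x‖ ≤ ‖(T.symm : Z →L[ℝ] H)‖ * ‖T x‖ := by
      have := (T.symm : Z →L[ℝ] H).le_opNorm (T x)
      simpa using this
    rw [hc, one_div, inv_mul_le_iff₀ hTpos]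
    have h2 : 0 ≤ ‖T x‖ := norm_nonneg _
    nlinarith
  · intro x
    exact (T : H →L[ℝ] Z).le_opNorm x
  · intro x y
    simp only [map_add]
    exact norm_add_le _ _
  · intro r x
    simp only [map_smul, norm_smul, Real.norm_eq_abs]
  · intro i x
    rw [InnerProductSpace.toDual_symm_apply]
    have hfi : ‖f i‖ ≤ 1 := hΓ1 _ (by rw [hf]; exact mem_range_self i)
    calc ((f i).comp (T : H →L[ℝ] Z)) x = f i (T x) := rfl
      _ ≤ ‖f i (T x)‖ := Real.le_norm_self _
      _ ≤ ‖f i‖ * ‖T x‖ := (f i).le_opNorm _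
      _ ≤ 1 * ‖T x‖ := mul_le_mul_of_nonneg_right hfi (norm_nonneg _)
      _ = ‖T x‖ := one_mul _
  · intro x
    obtain ⟨g, hg, hgx⟩ := hΓ2 (T x)
    rw [hf] at hg
    obtain ⟨i, rfl⟩ := hg
    refine ⟨i, ?_⟩
    rw [InnerProductSpace.toDual_symm_apply]
    exact hgx

end Hilbert

end Pool.Agent.Helper74
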