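import Pool.Agent.Helper74.LipCoreAux

set_option autoImplicit false

namespace Pool.Agent.Helper74

theorem lip_core {M : Type*} [MetricSpace M] {o : M} :
    @NormedSpace.Core ℝ (lip0Submodule M o) _ _ _ ⟨fun f => lipNorm f.1⟩ := lip_core_aux

end Pool.Agent.Helper74
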