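import Pool.Agent.Helper74.LipDefs

set_option autoImplicit false

open Filter Topology Set

namespace Pool.Agent.Helper74

variable {M : Type*} [MetricSpace M] {o : M}

theorem lipNorm_nonneg (f : M → ℝ) : 0 ≤ lipNorm f :=
  Real.iSup_nonneg fun _ => div_nonneg (abs_nonneg _) dist_nonneg

theorem lipNorm_le_of {f : M → ℝ} {C : ℝ} (hC : 0 ≤ C)
    (h : ∀ x y, |f x - f y| ≤ C * dist x y) : lipNorm f ≤ C := by
  apply Real.iSup_le _ hC
  rintro ⟨x, y⟩
  rcases eq_or_ne x y with rfl | hne
  · simpa using hC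
  · exact (div_le_iff₀ (dist_pos.mpr hne)).mpr (h x y)

theorem lip_bdd (f : lip0Submodule M o) :
    BddAbove (range fun p : M × M => |f.1 p.1 - f.1 p.2| / dist p.1 p.2) := by
  obtain ⟨K, hK⟩ := f.2.1
  refine ⟨K, ?_⟩
  rintro _ ⟨⟨x, y⟩, rfl⟩
  rcases eq_or_ne x y with rfl | hne
  · simp
  · refine (div_le_iff₀ (dist_pos.mpr hne)).mpr ?_
    have := hK.dist_le_mul x y
    rwa [Real.dist_eq] at this

theorem lip_slope_le (f : lip0Submodule M o) (x y : M) :
    |f.1 x - f.1 y| ≤ lipNorm f.1 * dist x y := by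
  rcases eq_or_ne x y with rfl | hne
  · simp
  · have := le_ciSup (lip_bdd f) (x, y)
    exact (div_le_iff₀ (dist_pos.mpr hne)).mp this

theorem lip_core_aux : @NormedSpace.Core ℝ (lip0Submodule M o) _ _ _ ⟨fun f => lipNorm f.1⟩ :=
  letI : Norm (lip0Submodule M o) := ⟨fun f => lipNorm f.1⟩
  { norm_nonneg := fun f => lipNorm_nonneg f.1
    norm_smul := by
      intro c f
      have key : ∀ (c : ℝ) (f : lip0Submodule M o), lipNorm (c • f).1 ≤ ‖c‖ * lipNorm f.1 := by
        intro c f
        apply lipNorm_le_of (mul_nonneg (_root_.norm_nonneg _) (lipNorm_nonneg f.1))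
        intro x y
        have e : ∀ z, (c • f).1 z = c * f.1 z := fun z => rfl
        rw [e, e, ← mul_sub, abs_mul, mul_assoc]
        exact mul_le_mul_of_nonneg_left (lip_slope_le f x y) (abs_nonneg c)
      change lipNorm (c • f).1 = ‖c‖ * lipNorm f.1
      apply le_antisymm (key c f)
      rcases eq_or_ne c 0 with rfl | hc
      · simpa using lipNorm_nonneg _
      · have h1 := key c⁻¹ (c • f)
        rw [smul_smul, inv_mul_cancel₀ hc, one_smul, norm_inv] at h1
        have h2 : 0 < ‖c‖ := norm_pos_iff.mpr hc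
        calc ‖c‖ * lipNorm f.1 ≤ ‖c‖ * (‖c‖⁻¹ * lipNorm (c • f).1) :=
              mul_le_mul_of_nonneg_left h1 h2.le
          _ = lipNorm (c • f).1 := by rw [← mul_assoc, mul_inv_cancel₀ h2.ne', one_mul]
    norm_triangle := by
      intro f g
      change lipNorm (f + g).1 ≤ lipNorm f.1 + lipNorm g.1
      apply lipNorm_le_of (add_nonneg (lipNorm_nonneg f.1) (lipNorm_nonneg g.1))
      intro x y
      have e : ∀ z, (f + g).1 z = f.1 z + g.1 z := fun z => rfl
      rw [e, e, add_mul]
      have h : f.1 x + g.1 x - (f.1 y + g.1 y) = (f.1 x - f.1 y) + (g.1 x - g.1 y) := by ring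
      rw [h]
      exact (abs_add_le _ _).trans (add_le_add (lip_slope_le f x y) (lip_slope_le g x y))
    norm_eq_zero_iff := by
      intro f
      change lipNorm f.1 = 0 ↔ f = 0
      constructor
      · intro h
        apply Subtype.ext
        funext x
        have h1 := lip_slope_le f x o
        have h2 : f.1 o = 0 := f.2.2
        rw [h, zero_mul, h2, sub_zero] at h1
        exact abs_nonpos_iff.mp h1
      · rintro rfl
        simp [lipNorm] }

end Pool.Agent.Helper74
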