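import Mathlib

set_option autoImplicit false

namespace Pool.Agent.Helper74

/-- The vector space of real valued Lipschitz functions on the pointed metric space `(M, o)`
vanishing at the base point `o`. -/
def lip0Submodule (M : Type*) [MetricSpace M] (o : M) : Submodule ℝ (M → ℝ) where
  carrier := {f | (∃ K : NNReal, LipschitzWith K f) ∧ f o = 0}
  add_mem' := by
    rintro f g ⟨⟨K, hK⟩, hf⟩ ⟨⟨L, hL⟩, hg⟩
    exact ⟨⟨K + L, hK.add hL⟩, by simp [hf, hg]⟩
  zero_mem' := ⟨⟨0, LipschitzWith.const 0⟩, rfl⟩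
  smul_mem' := by
    rintro c f ⟨⟨K, hK⟩, hf⟩
    refine ⟨⟨‖c‖₊ * K, ?_⟩, by simp [hf]⟩
    apply LipschitzWith.of_dist_le_mul
    intro x y
    have h := hK.dist_le_mul x y
    simp only [Pi.smul_apply, smul_eq_mul, Real.dist_eq, ← mul_sub, abs_mul, NNReal.coe_mul,
      coe_nnnorm, Real.norm_eq_abs, mul_assoc] at h ⊢
    exact mul_le_mul_of_nonneg_left h (abs_nonneg c)

/-- The Lipschitz norm: the supremum of the slopes. -/
noncomputable def lipNorm {M : Type*} [MetricSpace M] (f : M → ℝ) : ℝ :=
  ⨆ p : M × M, |f p.1 - f p.2| / dist p.1 p.2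

/-- The space `Lip₀(M)` of real valued Lipschitz functions on the pointed metric space `(M, o)`
vanishing at the base point `o`; it is given the norm `lipNorm`. -/
def Lip0 (M : Type*) [MetricSpace M] (o : M) : Type _ := lip0Submodule M o

end Pool.Agent.Helper74
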