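import Pool.Agent.Helper74.LipSpaceDefs

set_option autoImplicit false

open Filter Topology Set

namespace Pool.Agent.Helper74

variable {M : Type*} [MetricSpace M] {o : M}

instance : CoeFun (Lip0 M o) (fun _ => M → ℝ) := ⟨fun f => f.1⟩

theorem Lip0.ext {f g : Lip0 M o} (h : ∀ x, f x = g x) : f = g := Subtype.ext (funext h)

@[simp] theorem Lip0.add_apply (f g : Lip0 M o) (x : M) : (f + g) x = f x + g x := rfl

@[simp] theorem Lip0.smul_apply (c : ℝ) (f : Lip0 M o) (x : M) : (c • f) x = c * f x := rfl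

@[simp] theorem Lip0.zero_apply (x : M) : (0 : Lip0 M o) x = 0 := rfl

theorem Lip0.map_base (f : Lip0 M o) : f o = 0 := f.2.2

theorem Lip0.norm_def (f : Lip0 M o) : ‖f‖ = ⨆ p : M × M, |f p.1 - f p.2| / dist p.1 p.2 := rfl

theorem Lip0.norm_nonneg' (f : Lip0 M o) : 0 ≤ ‖f‖ := lipNorm_nonneg _

theorem Lip0.norm_le_of {f : Lip0 M o} {C : ℝ} (hC : 0 ≤ C)
    (h : ∀ x y, |f x - f y| ≤ C * dist x y) : ‖f‖ ≤ C := lipNorm_le_of hC h

theorem Lip0.bdd (f : Lip0 M o) :
    BddAbove (range fun p : M × M => |f p.1 - f p.2| / dist p.1 p.2) := lip_bdd f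

theorem Lip0.slope_le (f : Lip0 M o) (x y : M) : |f x - f y| ≤ ‖f‖ * dist x y := lip_slope_le f x y

end Pool.Agent.Helper74
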