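import Pool.Agent.Helper74.LipCore

set_option autoImplicit false

open Filter Topology Set

namespace Pool.Agent.Helper74

/-- `Lip₀(M)` with the norm `lipNorm`. -/
noncomputable instance Lip0.instNACG {M : Type*} [MetricSpace M] {o : M} :
    NormedAddCommGroup (Lip0 M o) :=
  @NormedAddCommGroup.ofCore ℝ (lip0Submodule M o) _ _ _ ⟨fun f => lipNorm f.1⟩ lip_core

/-- `Lip₀(M)` is a real normed space. -/
noncomputable instance Lip0.instNS {M : Type*} [MetricSpace M] {o : M} :
    NormedSpace ℝ (Lip0 M o) :=
  @NormedSpace.ofCore ℝ (lip0Submodule M o) _ Lip0.instNACG.toSeminormedAddCommGroup _ lip_core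

/-- `f` strongly attains its norm: the Lipschitz constant is the slope at some pair of distinct
points. -/
def StronglyAttains {M : Type*} [MetricSpace M] {o : M} (f : Lip0 M o) : Prop :=
  ∃ x y : M, x ≠ y ∧ |f.1 x - f.1 y| = ‖f‖ * dist x y

/-- The small ball property: for every `ε₀ > 0` the space is the union of a sequence of closed
balls with radii (strictly) between `0` and `ε₀` and converging to `0`. -/
def HasSmallBallProperty (M : Type*) [MetricSpace M] : Prop :=
  ∀ ε₀ : ℝ, 0 < ε₀ → ∃ (c : ℕ → M) (r : ℕ → ℝ), (⋃ n, Metric.closedBall (c n) (r n)) = univ ∧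
    (∀ n, 0 < r n ∧ r n < ε₀) ∧ Tendsto r atTop (𝓝 0)

end Pool.Agent.Helper74
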