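import Mathlib

set_option autoImplicit false

namespace Pool.Agent.Helper74

/-- A real normed space is polyhedral (Klee) if the closed unit ball of each of its finite
dimensional subspaces is a polytope, i.e. the convex hull of a finite set. -/
def IsPolyhedral (Z : Type*) [NormedAddCommGroup Z] [NormedSpace ℝ Z] : Prop :=
  ∀ F : Submodule ℝ Z, FiniteDimensional ℝ F →
    ∃ t : Set Z, t.Finite ∧ {z : Z | z ∈ F ∧ ‖z‖ ≤ 1} = convexHull ℝ t

end Pool.Agent.Helper74
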