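import Pool.Agent.Helper74.PolyDefs

set_option autoImplicit false

open Filter Topology Set

namespace Pool.Agent.Helper74

section Z

variable {Z : Type*} [NormedAddCommGroup Z] [NormedSpace ℝ Z]

/-- In a polyhedral space every germ of a segment lies in a cone on which the norm is a
linear functional. -/
theorem exists_support_segment (hZ : IsPolyhedral Z) (x v : Z) :
    ∃ δ : ℝ, 0 < δ ∧ ∃ f : StrongDual ℝ Z, ‖f‖ ≤ 1 ∧
      ∀ s : ℝ, 0 ≤ s → s ≤ δ → f (x + s • v) = ‖x + s • v‖ := by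
  classical
  rcases eq_or_ne x 0 with hx | hx
  · obtain ⟨f, hf1, hf2⟩ := exists_dual_vector'' ℝ v
    refine ⟨1, one_pos, f, hf1, fun s hs _ => ?_⟩
    have hf2' : f v = ‖v‖ := by exact_mod_cast hf2
    rw [hx, zero_add, map_smul, hf2', norm_smul, Real.norm_of_nonneg hs, smul_eq_mul]
  have hxn : 0 < ‖x‖ := norm_pos_iff.mpr hx
  -- the points of the segment
  set s : ℕ → ℝ := fun k => ‖x‖ / ((‖v‖ + 1) * (k + 1)) with hs
  have hspos : ∀ k, 0 < s k := fun k => by
    have : 0 ≤ ‖v‖ := norm_nonneg v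
    positivity
  have hsv : ∀ k, s k * ‖v‖ < ‖x‖ := by
    intro k
    have h0 : 0 ≤ ‖v‖ := norm_nonneg v
    have h1 : (0 : ℝ) < (‖v‖ + 1) * (k + 1) := by positivity
    rw [hs]
    simp only
    rw [div_mul_eq_mul_div, div_lt_iff₀ h1]
    have h2 : (0 : ℝ) ≤ k := Nat.cast_nonneg k
    have h3 : ‖v‖ < (‖v‖ + 1) * (k + 1) := by nlinarith
    exact mul_lt_mul_of_pos_left h3 hxn
  have hne : ∀ k, 0 < ‖x + s k • v‖ := by
    intro k
    have h1 : ‖x‖ - ‖s k • v‖ ≤ ‖x + s k • v‖ := by
      have := norm_sub_norm_le x (-(s k • v))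
      simpa using this
    rw [norm_smul, Real.norm_of_nonneg (hspos k).le] at h1
    have := hsv k
    linarith
  choose f hf1 hf2 using fun k : ℕ => exists_dual_vector'' ℝ (x + s k • v)
  have hf2' : ∀ k, f k (x + s k • v) = ‖x + s k • v‖ := fun k => by exact_mod_cast hf2 k
  obtain ⟨t, htfin, ht⟩ := hZ (Submodule.span ℝ {x, v}) (by
    apply FiniteDimensional.span_of_finite
    exact Set.toFinite _)
  have : Finite t := htfin
  have hft : ∀ k, ∀ w ∈ t, f k w ≤ 1 := by
    intro k w hw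
    have h1 : w ∈ {z : Z | z ∈ Submodule.span ℝ {x, v} ∧ ‖z‖ ≤ 1} := by
      rw [ht]; exact subset_convexHull ℝ t hw
    calc f k w ≤ ‖f k w‖ := Real.le_norm_self _
      _ ≤ ‖f k‖ * ‖w‖ := (f k).le_opNorm w
      _ ≤ 1 * 1 := mul_le_mul (hf1 k) h1.2 (norm_nonneg _) zero_le_one
      _ = 1 := one_mul 1
  set J : ℕ → Set t := fun k => {w : t | f k w = 1} with hJ
  obtain ⟨A, hA⟩ := Finite.exists_infinite_fiber J
  -- points of the segment are in the cone over the vertices in `J k`
  have hkey : ∀ k l, J k = A → J l = A → f l (x + s k • v) = ‖x + s k • v‖ := by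
    intro k l hk hl
    set y : Z := ‖x + s k • v‖⁻¹ • (x + s k • v) with hy
    have hymem : y ∈ convexHull ℝ t := by
      rw [← ht]
      refine ⟨?_, ?_⟩
      · apply Submodule.smul_mem
        apply Submodule.add_mem
        · exact Submodule.subset_span (by simp)
        · exact Submodule.smul_mem _ _ (Submodule.subset_span (by simp))
      · rw [hy, norm_smul, norm_inv, norm_norm, inv_mul_cancel₀ (hne k).ne']
    have hyf : f k y = 1 := by
      rw [hy, map_smul, hf2' k, smul_eq_mul, inv_mul_cancel₀ (hne k).ne']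
    lift t to Finset Z using htfin
    rw [Finset.mem_convexHull'] at hymem
    obtain ⟨c, hc0, hc1, hc2⟩ := hymem
    have hzero : ∀ w ∈ t, c w * (1 - f k w) = 0 := by
      have hsum : ∑ w ∈ t, c w * (1 - f k w) = 0 := by
        have h1 : ∑ w ∈ t, c w * f k w = 1 := by
          rw [← hyf, ← hc2, map_sum]
          refine Finset.sum_congr rfl fun w _ => ?_
          rw [map_smul, smul_eq_mul]
        calc ∑ w ∈ t, c w * (1 - f k w) = ∑ w ∈ t, c w - ∑ w ∈ t, c w * f k w := by
              rw [← Finset.sum_sub_distrib]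
              refine Finset.sum_congr rfl fun w _ => by ring
          _ = 0 := by rw [hc1, h1, sub_self]
      refine (Finset.sum_eq_zero_iff_of_nonneg ?_).mp hsum
      intro w hw
      exact mul_nonneg (hc0 w hw) (sub_nonneg.mpr (hft k w hw))
    have hfl : f l y = 1 := by
      rw [← hc2, map_sum, ← hc1]
      refine Finset.sum_congr rfl fun w hw => ?_
      rw [map_smul, smul_eq_mul]
      rcases mul_eq_zero.mp (hzero w hw) with h | h
      · rw [h]; ring
      · have h1 : (⟨w, hw⟩ : (t : Set Z)) ∈ J k := by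
          change f k w = 1; linarith
        rw [hk, ← hl] at h1
        have h2 : f l w = 1 := h1
        rw [h2, mul_one]
    rw [hy, map_smul, smul_eq_mul, inv_mul_eq_iff_eq_mul₀ (hne k).ne', mul_one] at hfl
    exact hfl
  have hAinf : (J ⁻¹' {A}).Infinite := Set.infinite_coe_iff.mp hA
  obtain ⟨k0, hk0⟩ := hAinf.nonempty
  have hpos : ∀ r : ℝ, 0 < r → r ≤ s k0 → f k0 (x + r • v) = ‖x + r • v‖ := by
    intro r hr0 hr1
    -- choose `k` in the fibre with `s k ≤ r`
    have hlim : Tendsto s atTop (𝓝 0) := by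
      have h1 : Tendsto (fun k : ℕ => (‖x‖ / (‖v‖ + 1)) * (1 / ((k : ℝ) + 1))) atTop
          (𝓝 ((‖x‖ / (‖v‖ + 1)) * 0)) :=
        tendsto_one_div_add_atTop_nhds_zero_nat.const_mul _
      rw [mul_zero] at h1
      refine h1.congr fun k => ?_
      rw [hs]
      simp only
      rw [div_mul_div_comm, mul_one]
    obtain ⟨N, hN⟩ := (eventually_atTop.mp ((tendsto_order.mp hlim).2 r hr0))
    obtain ⟨k, hk, hkN⟩ := hAinf.exists_gt N
    have hsk : s k < r := hN k hkN.le
    set lam : ℝ := (s k0 - r) / (s k0 - s k) with hlam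
    have hden : 0 < s k0 - s k := by linarith
    have hl0 : 0 ≤ lam := div_nonneg (by linarith) hden.le
    have hl1 : lam ≤ 1 := by
      rw [hlam, div_le_one hden]; linarith
    have hr : x + r • v = lam • (x + s k • v) + (1 - lam) • (x + s k0 • v) := by
      have h1 : lam * s k + (1 - lam) * s k0 = r := by
        have h2 : lam * (s k0 - s k) = s k0 - r := div_mul_cancel₀ _ hden.ne'
        linarith
      have h3 : lam • (x + s k • v) + (1 - lam) • (x + s k0 • v)
          = x + (lam * s k + (1 - lam) * s k0) • v := by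
        module
      rw [h3, h1]
    apply le_antisymm
    · calc f k0 (x + r • v) ≤ ‖f k0 (x + r • v)‖ := Real.le_norm_self _
        _ ≤ ‖f k0‖ * ‖x + r • v‖ := (f k0).le_opNorm _
        _ ≤ 1 * ‖x + r • v‖ := mul_le_mul_of_nonneg_right (hf1 k0) (norm_nonneg _)
        _ = ‖x + r • v‖ := one_mul _
    · calc ‖x + r • v‖ = ‖lam • (x + s k • v) + (1 - lam) • (x + s k0 • v)‖ := by rw [hr]
        _ ≤ ‖lam • (x + s k • v)‖ + ‖(1 - lam) • (x + s k0 • v)‖ := norm_add_le _ _
        _ = lam * ‖x + s k • v‖ + (1 - lam) * ‖x + s k0 • v‖ := by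
            rw [norm_smul, norm_smul, Real.norm_of_nonneg hl0,
              Real.norm_of_nonneg (by linarith : (0 : ℝ) ≤ 1 - lam)]
        _ = lam * f k0 (x + s k • v) + (1 - lam) * f k0 (x + s k0 • v) := by
            rw [hkey k k0 hk hk0, hf2' k0]
        _ = f k0 (x + r • v) := by
            rw [hr]
            simp only [map_add, map_smul, smul_eq_mul]
  refine ⟨s k0, hspos k0, f k0, hf1 k0, fun r hr0 hr1 => ?_⟩
  rcases hr0.eq_or_lt with h | h
  · -- the endpoint, by continuity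
    rw [← h]
    have hc1 : Tendsto (fun r : ℝ => f k0 (x + r • v)) (𝓝[>] 0) (𝓝 (f k0 (x + (0 : ℝ) • v))) := by
      have : Continuous (fun r : ℝ => f k0 (x + r • v)) := by fun_prop
      exact (this.tendsto 0).mono_left nhdsWithin_le_nhds
    have hc2 : Tendsto (fun r : ℝ => ‖x + r • v‖) (𝓝[>] 0) (𝓝 ‖x + (0 : ℝ) • v‖) := by
      have : Continuous (fun r : ℝ => ‖x + r • v‖) := by fun_prop
      exact (this.tendsto 0).mono_left nhdsWithin_le_nhds
    refine tendsto_nhds_unique (hc1.congr' ?_) hc2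
    filter_upwards [Ioc_mem_nhdsGT (hspos k0)] with r hr
    exact hpos r hr.1 hr.2
  · exact hpos r h hr1

/-- the set of points at which the norm is almost differentiable in the direction `w` -/
def almostSmooth (w : Z) (m : ℕ) : Set Z :=
  {z | ∃ t : ℝ, 0 < t ∧ ‖z + t • w‖ + ‖z - t • w‖ - 2 * ‖z‖ < t / (m + 1)}

theorem isOpen_almostSmooth (w : Z) (m : ℕ) : IsOpen (almostSmooth w m) := by
  have h : almostSmooth w m = ⋃ t : {t : ℝ // 0 < t},
      {z | ‖z + t.1 • w‖ + ‖z - t.1 • w‖ - 2 * ‖z‖ < t.1 / (m + 1)} := by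
    ext z
    simp only [almostSmooth, mem_ofPred_eq, mem_iUnion]
    constructor
    · rintro ⟨t, ht, h⟩
      exact ⟨⟨t, ht⟩, h⟩
    · rintro ⟨⟨t, ht⟩, h⟩
      exact ⟨t, ht, h⟩
  rw [h]
  refine isOpen_iUnion fun t => ?_
  exact isOpen_lt (by fun_prop) continuous_const

theorem dense_almostSmooth (hZ : IsPolyhedral Z) (w : Z) (m : ℕ) : Dense (almostSmooth w m) := by
  rw [Metric.dense_iff]
  intro z ε hε
  obtain ⟨δ, hδ, f, _, hf⟩ := exists_support_segment hZ z w
  have hw : 0 ≤ ‖w‖ := norm_nonneg w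
  set t : ℝ := min (δ / 2) (ε / (2 * (‖w‖ + 1))) with ht
  have ht0 : 0 < t := by
    apply lt_min <;> positivity
  have ht1 : 2 * t ≤ δ := by
    have := min_le_left (δ / 2) (ε / (2 * (‖w‖ + 1)))
    linarith
  have ht2 : t * ‖w‖ < ε := by
    have h1 : t ≤ ε / (2 * (‖w‖ + 1)) := min_le_right _ _
    have h2 : (0 : ℝ) < 2 * (‖w‖ + 1) := by positivity
    rw [le_div_iff₀ h2] at h1
    nlinarith
  refine ⟨z + t • w, ?_, t, ht0, ?_⟩
  · rw [Metric.mem_ball, dist_eq_norm, add_sub_cancel_left, norm_smul,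
      Real.norm_of_nonneg ht0.le]
    exact ht2
  · have h1 := hf (2 * t) (by linarith) ht1
    have h2 := hf 0 le_rfl hδ.le
    have h3 := hf t ht0.le (by linarith)
    have e1 : z + t • w + t • w = z + (2 * t) • w := by module
    have e2 : z + t • w - t • w = z + (0 : ℝ) • w := by module
    rw [e1, e2, ← h1, ← h2, ← h3]
    simp only [map_add, map_smul, smul_eq_mul]
    have : 0 < t / (m + 1) := by positivity
    linarith

/-- At a smooth point the supporting functional is unique. -/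
theorem support_unique [TopologicalSpace.SeparableSpace Z] {z : Z}
    (hz : ∀ j m, z ∈ almostSmooth (TopologicalSpace.denseSeq Z j) m) {f g : StrongDual ℝ Z}
    (hf : ‖f‖ ≤ 1) (hg : ‖g‖ ≤ 1) (hfz : f z = ‖z‖) (hgz : g z = ‖z‖) : f = g := by
  have hle : ∀ (h : StrongDual ℝ Z), ‖h‖ ≤ 1 → ∀ y, h y ≤ ‖y‖ := by
    intro h hh y
    calc h y ≤ ‖h y‖ := Real.le_norm_self _
      _ ≤ ‖h‖ * ‖y‖ := h.le_opNorm _
      _ ≤ 1 * ‖y‖ := mul_le_mul_of_nonneg_right hh (norm_nonneg _)
      _ = ‖y‖ := one_mul _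
  have key : ∀ (f g : StrongDual ℝ Z), ‖f‖ ≤ 1 → ‖g‖ ≤ 1 → f z = ‖z‖ → g z = ‖z‖ →
      ∀ j, f (TopologicalSpace.denseSeq Z j) ≤ g (TopologicalSpace.denseSeq Z j) := by
    intro f g hf hg hfz hgz j
    set w := TopologicalSpace.denseSeq Z j with hw
    by_contra hlt
    push Not at hlt
    obtain ⟨m, hm⟩ := exists_nat_one_div_lt (sub_pos.mpr hlt)
    obtain ⟨t, ht, h⟩ := hz j m
    have h1 := hle f hf (z + t • w)
    have h2 := hle g hg (z - t • w)
    rw [map_add, map_smul, smul_eq_mul, hfz] at h1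
    rw [map_sub, map_smul, smul_eq_mul, hgz] at h2
    have h3 : t * (f w - g w) < t / (m + 1) := by
      have : t * (f w - g w) = t * f w - t * g w := by ring
      rw [this]
      rw [← hw] at h
      linarith
    have h4 : t / ((m : ℝ) + 1) = t * (1 / ((m : ℝ) + 1)) := by ring
    rw [h4] at h3
    have h5 := lt_of_mul_lt_mul_left h3 ht.le
    linarith
  have heq : ∀ j, f (TopologicalSpace.denseSeq Z j) = g (TopologicalSpace.denseSeq Z j) :=
    fun j => le_antisymm (key f g hf hg hfz hgz j) (key g f hg hf hgz hfz j)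
  have hfg : (f : Z → ℝ) = g := by
    apply Continuous.ext_on (TopologicalSpace.denseRange_denseSeq Z) f.continuous g.continuous
    rintro _ ⟨j, rfl⟩
    exact heq j
  exact DFunLike.coe_injective hfg

/-- At a smooth point of a polyhedral space the norm is locally linear. -/
theorem facet_of_smooth [CompleteSpace Z] [TopologicalSpace.SeparableSpace Z]
    (hZ : IsPolyhedral Z) {z : Z}
    (hz : ∀ j m, z ∈ almostSmooth (TopologicalSpace.denseSeq Z j) m) {f : StrongDual ℝ Z}
    (hf : ‖f‖ ≤ 1) (hfz : f z = ‖z‖) : ∃ ρ : ℝ, 0 < ρ ∧ ∀ y ∈ Metric.ball z ρ, f y = ‖y‖ := by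
  have hle : ∀ y, f y ≤ ‖y‖ := by
    intro y
    calc f y ≤ ‖f y‖ := Real.le_norm_self _
      _ ≤ ‖f‖ * ‖y‖ := f.le_opNorm _
      _ ≤ 1 * ‖y‖ := mul_le_mul_of_nonneg_right hf (norm_nonneg _)
      _ = ‖y‖ := one_mul _
  set D : ℕ → Set Z := fun n => {v | ∀ s : ℝ, 0 ≤ s → s ≤ 1 / ((n : ℝ) + 1) →
    f (z + s • v) = ‖z + s • v‖} with hD
  have hDclosed : ∀ n, IsClosed (D n) := by
    intro n
    have : D n = ⋂ s : {s : ℝ // 0 ≤ s ∧ s ≤ 1 / ((n : ℝ) + 1)},
        {v | f (z + s.1 • v) = ‖z + s.1 • v‖} := by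
      ext v
      simp only [hD, mem_ofPred_eq, mem_iInter]
      constructor
      · rintro h ⟨s, hs⟩
        exact h s hs.1 hs.2
      · intro h s h0 h1
        exact h ⟨s, h0, h1⟩
    rw [this]
    refine isClosed_iInter fun s => isClosed_eq (by fun_prop) (by fun_prop)
  have hDcover : ⋃ n, D n = univ := by
    rw [eq_univ_iff_forall]
    intro v
    obtain ⟨δ, hδ, g, hg1, hg2⟩ := exists_support_segment hZ z v
    have hgz : g z = ‖z‖ := by
      have := hg2 0 le_rfl hδ.le
      simpa using this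
    have hfg : f = g := support_unique hz hf hg1 hfz hgz
    obtain ⟨n, hn⟩ := exists_nat_one_div_lt hδ
    refine mem_iUnion.mpr ⟨n, fun s hs0 hs1 => ?_⟩
    rw [hfg]
    exact hg2 s hs0 (hs1.trans hn.le)
  obtain ⟨n, v, hv⟩ := nonempty_interior_of_iUnion_of_closed hDclosed hDcover
  obtain ⟨ρ, hρ, hball⟩ := Metric.isOpen_iff.mp isOpen_interior v hv
  obtain ⟨m, hm⟩ := mem_iUnion.mp (by rw [hDcover]; exact mem_univ (-v) : -v ∈ ⋃ n, D n)
  set s : ℝ := 1 / ((max n m : ℕ) + 1 : ℝ) with hs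
  have hs0 : 0 < s := by rw [hs]; positivity
  have hsn : s ≤ 1 / ((n : ℝ) + 1) := by
    rw [hs]
    apply one_div_le_one_div_of_le (by positivity)
    have : (n : ℝ) ≤ (max n m : ℕ) := by exact_mod_cast le_max_left n m
    linarith
  have hsm : s ≤ 1 / ((m : ℝ) + 1) := by
    rw [hs]
    apply one_div_le_one_div_of_le (by positivity)
    have : (m : ℝ) ≤ (max n m : ℕ) := by exact_mod_cast le_max_right n m
    linarith
  refine ⟨s / 2 * ρ, by positivity, fun y hy => ?_⟩
  rw [Metric.mem_ball, dist_eq_norm] at hy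
  -- `y = z + (s/2) w` with `‖w‖ < ρ`
  set w : Z := (2 / s) • (y - z) with hw
  have hyw : y = z + (s / 2) • w := by
    rw [hw, smul_smul]
    have : s / 2 * (2 / s) = 1 := by field_simp
    rw [this, one_smul]; abel
  have hwn : ‖w‖ < ρ := by
    rw [hw, norm_smul, Real.norm_of_nonneg (by positivity)]
    calc 2 / s * ‖y - z‖ < 2 / s * (s / 2 * ρ) := mul_lt_mul_of_pos_left hy (by positivity)
      _ = ρ := by field_simp
  have h1 : f (z + s • (v + w)) = ‖z + s • (v + w)‖ := by
    have : v + w ∈ D n := interior_subset (hball (by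
      rw [Metric.mem_ball, dist_eq_norm, add_sub_cancel_left]; exact hwn))
    exact this s hs0.le hsn
  have h2 : f (z + s • (-v)) = ‖z + s • (-v)‖ := hm s hs0.le hsm
  apply le_antisymm (hle y)
  have h3 : y = (1 / 2 : ℝ) • ((z + s • (v + w)) + (z + s • (-v))) := by
    rw [hyw]; module
  calc ‖y‖ = 1 / 2 * ‖(z + s • (v + w)) + (z + s • (-v))‖ := by
        conv_lhs => rw [h3]
        rw [norm_smul, Real.norm_of_nonneg (by norm_num)]
    _ ≤ 1 / 2 * (‖z + s • (v + w)‖ + ‖z + s • (-v)‖) :=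
        mul_le_mul_of_nonneg_left (norm_add_le _ _) (by norm_num)
    _ = 1 / 2 * (f (z + s • (v + w)) + f (z + s • (-v))) := by rw [h1, h2]
    _ = f y := by
        conv_rhs => rw [h3]
        rw [map_smul, smul_eq_mul, ← map_add f (z + s • (v + w)) (z + s • (-v))]

/-- A separable polyhedral Banach space has a countable boundary. -/
theorem exists_countable_boundary [CompleteSpace Z] [TopologicalSpace.SeparableSpace Z]
    (hZ : IsPolyhedral Z) :
    ∃ Γ : Set (StrongDual ℝ Z), Γ.Countable ∧ (∀ f ∈ Γ, ‖f‖ ≤ 1) ∧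
      ∀ x : Z, ∃ f ∈ Γ, f x = ‖x‖ := by
  set Γ : Set (StrongDual ℝ Z) :=
    {f | ‖f‖ ≤ 1 ∧ (interior {x : Z | f x = ‖x‖}).Nonempty} with hΓ
  refine ⟨Γ, ?_, fun f hf => hf.1, ?_⟩
  · apply Set.PairwiseDisjoint.countable_of_isOpen
      (s := fun f : StrongDual ℝ Z => interior {x : Z | f x = ‖x‖})
    · intro f _ g _ hfg
      rw [Function.onFun, Set.disjoint_left]
      intro x hxf hxg
      apply hfg
      have hopen : IsOpen (interior {x : Z | f x = ‖x‖} ∩ interior {x : Z | g x = ‖x‖}) :=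
        isOpen_interior.inter isOpen_interior
      obtain ⟨ρ, hρ, hball⟩ := Metric.isOpen_iff.mp hopen x ⟨hxf, hxg⟩
      have heq : ∀ y ∈ Metric.ball x ρ, f y = g y := by
        intro y hy
        have h1 : y ∈ {x : Z | f x = ‖x‖} := interior_subset (hball hy).1
        have h2 : y ∈ {x : Z | g x = ‖x‖} := interior_subset (hball hy).2
        exact h1.trans h2.symm
      ext v
      obtain ⟨c, hc0, hc1⟩ : ∃ c : ℝ, 0 < c ∧ ‖c • v‖ < ρ := by
        refine ⟨ρ / (2 * (‖v‖ + 1)), by positivity, ?_⟩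
        rw [norm_smul, Real.norm_of_nonneg (by positivity)]
        have h0 : 0 ≤ ‖v‖ := norm_nonneg v
        rw [div_mul_eq_mul_div, div_lt_iff₀ (by positivity)]
        nlinarith
      have h1 := heq (x + c • v) (by
        rw [Metric.mem_ball, dist_eq_norm, add_sub_cancel_left]; exact hc1)
      have h2 := heq x (Metric.mem_ball_self hρ)
      rw [map_add, map_add, map_smul, map_smul, smul_eq_mul, smul_eq_mul, h2,
        add_right_inj] at h1
      exact mul_left_cancel₀ hc0.ne' h1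
    · intro f _
      exact isOpen_interior
    · intro f hf
      exact hf.2
  · intro x
    -- a direction `v` such that all the points `x + v/(k+1)` are smooth
    have hdense : Dense (⋂ p : ℕ × ℕ × ℕ, {v : Z | x + (1 / ((p.1 : ℝ) + 1)) • v ∈
        almostSmooth (TopologicalSpace.denseSeq Z p.2.1) p.2.2}) := by
      apply dense_iInter_of_isOpen
      · rintro ⟨k, j, m⟩
        exact (isOpen_almostSmooth _ _).preimage (by fun_prop)
      · rintro ⟨k, j, m⟩
        have hk : (1 / ((k : ℝ) + 1)) ≠ 0 := by positivity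
        let φ : Z ≃ₜ Z := (Homeomorph.smulOfNeZero (1 / ((k : ℝ) + 1)) hk).trans
          (Homeomorph.addLeft x)
        exact (dense_almostSmooth hZ (TopologicalSpace.denseSeq Z j) m).preimage φ.isOpenMap
    obtain ⟨v, hv⟩ := hdense.nonempty
    have hv' : ∀ k j m : ℕ, x + (1 / ((k : ℝ) + 1)) • v ∈
        almostSmooth (TopologicalSpace.denseSeq Z j) m := fun k j m => by
      have := mem_iInter.mp hv (k, j, m)
      exact this
    obtain ⟨δ, hδ, f, hf1, hf2⟩ := exists_support_segment hZ x v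
    obtain ⟨k, hk⟩ := exists_nat_one_div_lt hδ
    have hfz := hf2 (1 / ((k : ℝ) + 1)) (by positivity) hk.le
    obtain ⟨ρ, hρ, hball⟩ := facet_of_smooth hZ (hv' k) hf1 hfz
    refine ⟨f, ⟨hf1, ?_⟩, ?_⟩
    · refine ⟨x + (1 / ((k : ℝ) + 1)) • v, ?_⟩
      rw [mem_interior]
      exact ⟨Metric.ball _ ρ, fun y hy => hball y hy, Metric.isOpen_ball,
        Metric.mem_ball_self hρ⟩
    · have := hf2 0 le_rfl hδ.le
      simpa using this

end Z

end Pool.Agent.Helper74
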