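import Mathlib

set_option autoImplicit false

open Filter Topology

namespace Pool.Agent.Helper74

/-- the sign attached to a boolean -/
def sgn (b : Bool) : ℝ := if b then -1 else 1

@[simp] theorem sgn_true : sgn true = -1 := rfl
@[simp] theorem sgn_false : sgn false = 1 := rfl

theorem sgn_mul_self (b : Bool) : sgn b * sgn b = 1 := by cases b <;> simp

theorem abs_sgn (b : Bool) : |sgn b| = 1 := by cases b <;> simp

variable {I : Type*} [Fintype I] [DecidableEq I]

/-- The Riesz product. -/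
noncomputable def rieszC (w : I → ℝ) (ε : I → Bool) : ℂ :=
  ∏ i, (1 + Complex.I * (w i : ℂ) * (sgn (ε i) : ℂ))

omit [DecidableEq I] in
theorem norm_rieszC_le (w : I → ℝ) (hw : ∑ i, w i ^ 2 ≤ 1) (ε : I → Bool) :
    ‖rieszC w ε‖ ≤ 2 := by
  have h1 : ‖rieszC w ε‖ ^ 2 = ∏ i, (1 + w i ^ 2) := by
    unfold rieszC
    rw [norm_prod, ← Finset.prod_pow]
    refine Finset.prod_congr rfl fun i _ => ?_
    have : (1 + Complex.I * (w i : ℂ) * (sgn (ε i) : ℂ))
        = ((1 : ℝ) : ℂ) + ((w i * sgn (ε i) : ℝ) : ℂ) * Complex.I := by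
      push_cast; ring
    rw [this, Complex.sq_norm, Complex.normSq_add_mul_I]
    have hs := sgn_mul_self (ε i)
    nlinarith
  have h2 : ∏ i, (1 + w i ^ 2) ≤ Real.exp 1 := by
    calc ∏ i, (1 + w i ^ 2) ≤ ∏ i, Real.exp (w i ^ 2) := by
          apply Finset.prod_le_prod
          · intro i _; positivity
          · intro i _
            have := Real.add_one_le_exp (w i ^ 2)
            linarith
      _ = Real.exp (∑ i, w i ^ 2) := by rw [Real.exp_sum]
      _ ≤ Real.exp 1 := Real.exp_le_exp.mpr hw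
  have h3 : Real.exp 1 < 4 := by
    have := Real.exp_one_lt_d9
    linarith
  have h4 : ‖rieszC w ε‖ ^ 2 ≤ 2 ^ 2 := by
    rw [h1]; linarith
  exact abs_le_of_sq_le_sq' h4 (by norm_num) |>.2

theorem sum_rieszC (w : I → ℝ) (i : I) :
    ∑ ε : I → Bool, (sgn (ε i) : ℂ) * rieszC w ε
      = (2 : ℂ) ^ (Fintype.card I) * (Complex.I * w i) := by
  have h1 : ∀ ε : I → Bool, (sgn (ε i) : ℂ) * rieszC w ε
      = ∏ l, ((if l = i then (sgn (ε l) : ℂ) else 1)
          * (1 + Complex.I * (w l : ℂ) * (sgn (ε l) : ℂ))) := by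
    intro ε
    rw [Finset.prod_mul_distrib, rieszC]
    congr 1
    rw [Finset.prod_ite_eq' Finset.univ i]
    simp
  have h2 : ∑ ε : I → Bool, (sgn (ε i) : ℂ) * rieszC w ε
      = ∏ l, ∑ s : Bool, ((if l = i then (sgn s : ℂ) else 1)
          * (1 + Complex.I * (w l : ℂ) * (sgn s : ℂ))) := by
    rw [Finset.prod_univ_sum]
    simp only [Fintype.piFinset_univ]
    exact Finset.sum_congr rfl fun ε _ => h1 ε
  rw [h2]
  have h3 : ∀ l, ∑ s : Bool, ((if l = i then (sgn s : ℂ) else 1)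
          * (1 + Complex.I * (w l : ℂ) * (sgn s : ℂ)))
        = if l = i then 2 * (Complex.I * (w l : ℂ)) else 2 := by
    intro l
    by_cases hl : l = i
    · simp [hl]; ring
    · simp [hl]; ring
  simp only [h3]
  have h4 : ∀ l, (if l = i then 2 * (Complex.I * (w l : ℂ)) else 2)
      = (2 : ℂ) * (if l = i then (Complex.I * (w l : ℂ)) else 1) := by
    intro l; split_ifs <;> ring
  simp only [h4]
  rw [Finset.prod_mul_distrib, Finset.prod_const, Finset.card_univ, Finset.prod_ite_eq']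
  simp

/-- Real Riesz product functions: every vector of the Euclidean unit ball is the vector of first
order Walsh coefficients of a function bounded by `2`. -/
theorem exists_riesz_real (w : I → ℝ) (hw : ∑ i, w i ^ 2 ≤ 1) :
    ∃ s : (I → Bool) → ℝ, (∀ ε, |s ε| ≤ 2) ∧
      ∀ i, ∑ ε : I → Bool, sgn (ε i) * s ε = 2 ^ (Fintype.card I) * w i := by
  refine ⟨fun ε => (rieszC w ε).im, ?_, ?_⟩
  · intro ε
    exact (Complex.abs_im_le_norm _).trans (norm_rieszC_le w hw ε)
  · intro i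
    have h := congrArg Complex.im (sum_rieszC w i)
    rw [Complex.im_sum] at h
    have h1 : ∀ ε : I → Bool, ((sgn (ε i) : ℂ) * rieszC w ε).im = sgn (ε i) * (rieszC w ε).im := by
      intro ε
      rw [Complex.im_ofReal_mul]
    simp only [h1] at h
    rw [h]
    have h2 : ((2 : ℂ) ^ (Fintype.card I) * (Complex.I * w i))
        = (((2 : ℝ) ^ (Fintype.card I) * w i : ℝ) : ℂ) * Complex.I := by
      push_cast; ring
    rw [h2, Complex.im_ofReal_mul]
    simp

/-- Riesz product functions with `ℝ` or `ℂ` scalars. -/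
theorem exists_riesz (𝕜 : Type*) [RCLike 𝕜] (w : I → 𝕜) (hw : ∑ i, ‖w i‖ ^ 2 ≤ 1) :
    ∃ s : (I → Bool) → 𝕜, (∀ ε, ‖s ε‖ ≤ 4) ∧
      ∀ i, ∑ ε : I → Bool, ((sgn (ε i) : ℝ) : 𝕜) * s ε = 2 ^ (Fintype.card I) * w i := by
  have hre : ∑ i, (RCLike.re (w i)) ^ 2 ≤ 1 := by
    refine le_trans (Finset.sum_le_sum fun i _ => ?_) hw
    rw [← sq_abs (RCLike.re (w i))]
    gcongr
    exact RCLike.abs_re_le_norm _
  have him : ∑ i, (RCLike.im (w i)) ^ 2 ≤ 1 := by
    refine le_trans (Finset.sum_le_sum fun i _ => ?_) hw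
    rw [← sq_abs (RCLike.im (w i))]
    gcongr
    exact RCLike.abs_im_le_norm _
  obtain ⟨s1, hs1, hs1'⟩ := exists_riesz_real (fun i => RCLike.re (w i)) hre
  obtain ⟨s2, hs2, hs2'⟩ := exists_riesz_real (fun i => RCLike.im (w i)) him
  refine ⟨fun ε => (s1 ε : 𝕜) + (s2 ε : 𝕜) * RCLike.I, ?_, ?_⟩
  · intro ε
    calc ‖(s1 ε : 𝕜) + (s2 ε : 𝕜) * RCLike.I‖ ≤ ‖(s1 ε : 𝕜)‖ + ‖(s2 ε : 𝕜) * RCLike.I‖ :=
          norm_add_le _ _
      _ ≤ 2 + 2 * 1 := by
          rw [norm_mul, RCLike.norm_ofReal, RCLike.norm_ofReal]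
          have h1 := hs1 ε
          have h2 := hs2 ε
          have h3 : ‖(RCLike.I : 𝕜)‖ ≤ 1 := by
            rcases eq_or_ne (RCLike.I : 𝕜) 0 with h | h
            · rw [h]; simp
            · exact (RCLike.norm_I_of_ne_zero h).le
          have h4 := abs_nonneg (s2 ε)
          have h5 : |s2 ε| * ‖(RCLike.I : 𝕜)‖ ≤ 2 * 1 :=
            mul_le_mul h2 h3 (norm_nonneg _) (by norm_num)
          linarith
      _ = 4 := by norm_num
  · intro i
    have h1 : ∑ ε : I → Bool, ((sgn (ε i) : ℝ) : 𝕜) * ((s1 ε : 𝕜) + (s2 ε : 𝕜) * RCLike.I)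
        = ((∑ ε : I → Bool, sgn (ε i) * s1 ε : ℝ) : 𝕜)
          + ((∑ ε : I → Bool, sgn (ε i) * s2 ε : ℝ) : 𝕜) * RCLike.I := by
      push_cast
      rw [Finset.sum_mul, ← Finset.sum_add_distrib]
      refine Finset.sum_congr rfl fun ε _ => ?_
      ring
    rw [h1, hs1', hs2']
    push_cast
    have h2 := RCLike.re_add_im (w i)
    calc (2 : 𝕜) ^ Fintype.card I * (RCLike.re (w i) : 𝕜)
          + (2 : 𝕜) ^ Fintype.card I * (RCLike.im (w i) : 𝕜) * RCLike.I
        = 2 ^ Fintype.card I * ((RCLike.re (w i) : 𝕜) + (RCLike.im (w i) : 𝕜) * RCLike.I) := by ring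
      _ = _ := by rw [h2]

end Pool.Agent.Helper74
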