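import Pool.Agent.Helper74.SbpSpace

set_option autoImplicit false

open Filter Topology Set

namespace Pool.Agent.Helper74

/-- Every nontrivial Banach space with separable dual is isometric to a linear subspace of
`Lip₀(M)` consisting of strongly norm attaining functions, for some complete pointed metric space
`M` with the small ball property. -/
theorem exists_sbp_embedding (Y : Type) [NormedAddCommGroup Y] [NormedSpace ℝ Y] [Nontrivial Y]
    [TopologicalSpace.SeparableSpace (StrongDual ℝ Y)] :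
    ∃ (M : Type) (_ : MetricSpace M) (_ : CompleteSpace M) (_ : Nontrivial M) (o : M),
      HasSmallBallProperty M ∧ ∃ Φ : Y →ₗᵢ[ℝ] Lip0 M o, ∀ y, StronglyAttains (Φ y) := by
  classical
  set d : ℕ → StrongDual ℝ Y := TopologicalSpace.denseSeq (StrongDual ℝ Y) with hd
  have hdense : DenseRange d := TopologicalSpace.denseRange_denseSeq _
  have hdiff : ∀ u : StrongDual ℝ Y, ∃ p q : SbpSpace d, p.1.1 - q.1.1 = u :=
    exists_sub_eq d hdense
  -- a nonzero vector and a norming functional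
  obtain ⟨y0, hy0⟩ := exists_ne (0 : Y)
  obtain ⟨u0, hu0, _⟩ := exists_dual_vector ℝ y0 (norm_ne_zero_iff.mpr hy0)
  obtain ⟨p0, q0, hpq0⟩ := hdiff u0
  have hnt : Nontrivial (SbpSpace d) := by
    refine ⟨⟨p0, q0, ?_⟩⟩
    rintro rfl
    rw [sub_self] at hpq0
    rw [← hpq0, norm_zero] at hu0
    exact zero_ne_one hu0
  have hne : Nonempty (SbpSpace d) := ⟨p0⟩
  let F : Y → SbpSpace d → ℝ := fun y p => p.1.1 y - p0.1.1 y
  have hslope : ∀ (y : Y) (p q : SbpSpace d), F y p - F y q = (p.1.1 - q.1.1) y := by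
    intro y p q
    change (p.1.1 y - p0.1.1 y) - (q.1.1 y - p0.1.1 y) = p.1.1 y - q.1.1 y
    ring
  have hlip : ∀ (y : Y) (p q : SbpSpace d), |F y p - F y q| ≤ ‖y‖ * dist p q := by
    intro y p q
    rw [hslope, ← Real.norm_eq_abs]
    calc ‖(p.1.1 - q.1.1) y‖ ≤ ‖p.1.1 - q.1.1‖ * ‖y‖ := (p.1.1 - q.1.1).le_opNorm y
      _ ≤ dist p q * ‖y‖ := mul_le_mul_of_nonneg_right (norm_sub_le_dist d p q) (norm_nonneg _)
      _ = ‖y‖ * dist p q := mul_comm _ _
  have hmem : ∀ y, F y ∈ lip0Submodule (SbpSpace d) p0 := by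
    intro y
    refine ⟨⟨‖y‖₊, LipschitzWith.of_dist_le_mul fun p q => ?_⟩, ?_⟩
    · rw [Real.dist_eq]
      exact hlip y p q
    · change p0.1.1 y - p0.1.1 y = 0
      ring
  let Φ₀ : Y →ₗ[ℝ] Lip0 (SbpSpace d) p0 :=
    { toFun := fun y => ⟨F y, hmem y⟩
      map_add' := by
        intro y z
        apply Lip0.ext
        intro p
        change p.1.1 (y + z) - p0.1.1 (y + z) = (p.1.1 y - p0.1.1 y) + (p.1.1 z - p0.1.1 z)
        rw [map_add, map_add]; ring
      map_smul' := by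
        intro c y
        apply Lip0.ext
        intro p
        change p.1.1 (c • y) - p0.1.1 (c • y) = c * (p.1.1 y - p0.1.1 y)
        rw [map_smul, map_smul, smul_eq_mul, smul_eq_mul]; ring }
  have hattain : ∀ y, ∃ p q : SbpSpace d, p ≠ q ∧ |F y p - F y q| = ‖y‖ * dist p q := by
    intro y
    rcases eq_or_ne y 0 with hy | hy
    · obtain ⟨p, q, hpq⟩ := exists_pair_ne (SbpSpace d)
      refine ⟨p, q, hpq, ?_⟩
      rw [hslope, hy]; simp
    · obtain ⟨u, hu1, hu2⟩ := exists_dual_vector ℝ y (norm_ne_zero_iff.mpr hy)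
      obtain ⟨p, q, hpq⟩ := hdiff u
      have hdist : dist p q = 1 := by
        rw [dist_eq_of_norm d (by rw [hpq, hu1]), hpq, hu1]
      refine ⟨p, q, ?_, ?_⟩
      · rintro rfl
        rw [dist_self] at hdist
        exact zero_ne_one hdist
      · have hu2' : u y = ‖y‖ := by exact_mod_cast hu2
        rw [hslope, hpq, hdist, hu2', mul_one, abs_of_nonneg (norm_nonneg _)]
  have hnorm : ∀ y, ‖Φ₀ y‖ = ‖y‖ := by
    intro y
    apply le_antisymm
    · exact Lip0.norm_le_of (norm_nonneg _) (hlip y)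
    · obtain ⟨p, q, hpq, h⟩ := hattain y
      have h1 : |F y p - F y q| ≤ ‖Φ₀ y‖ * dist p q := (Φ₀ y).slope_le p q
      rw [h] at h1
      exact le_of_mul_le_mul_right h1 (dist_pos.mpr hpq)
  refine ⟨SbpSpace d, inferInstance, inferInstance, hnt, p0, hasSmallBallProperty d,
    ⟨Φ₀, hnorm⟩, fun y => ?_⟩
  obtain ⟨p, q, hpq, h⟩ := hattain y
  refine ⟨p, q, hpq, ?_⟩
  change |F y p - F y q| = ‖Φ₀ y‖ * dist p q
  rw [hnorm, h]

end Pool.Agent.Helper74
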