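import Pool.Agent.Helper74.LipSpace

set_option autoImplicit false

open Filter Topology Set

namespace Pool.Agent.Helper74

/-- the Baire space with the metric `2^{-n}`, `n` the first difference -/
def NN : Type := ℕ → ℕ

noncomputable instance : MetricSpace NN := PiNat.metricSpaceNatNat

instance : CompleteSpace NN := inferInstanceAs (CompleteSpace (ℕ → ℕ))

theorem NN.dist_le_one (x y : NN) : dist x y ≤ 1 := PiNat.dist_le_one (E := fun _ => ℕ) x y

theorem NN.dist_le_of_agree {x y : NN} {n : ℕ} (h : ∀ i < n, x i = y i) :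
    dist x y ≤ (1 / 2) ^ n :=
  (PiNat.mem_cylinder_iff_dist_le (E := fun _ => ℕ)).mp
    ((PiNat.mem_cylinder_iff (E := fun _ => ℕ)).mpr h)

theorem NN.continuous_apply (j : ℕ) : Continuous (fun x : NN => x j) :=
  _root_.continuous_apply (A := fun _ : ℕ => ℕ) j

section Space

variable {X : Type*} [NormedAddCommGroup X] (d : ℕ → X)

/-- the closed set of good pairs `(x, γ)`: `γ` is a closure operator on `ℕ` (it codes the infinite
set of its fixed points) and `x` is `2^{-(l+1)}`-close to `{d 0, …, d l}` for each `l` in the range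
of `γ` -/
def goodSet : Set (X × NN) :=
  {p | Monotone p.2 ∧ (∀ j, j ≤ p.2 j) ∧ (∀ j, p.2 (p.2 j) = p.2 j) ∧
    ∀ j, ∃ i ≤ p.2 j, ‖p.1 - d i‖ ≤ (1 / 2 : ℝ) ^ (p.2 j + 1)}

theorem isClosed_goodSet : IsClosed (goodSet d) := by
  apply IsSeqClosed.isClosed
  intro p q hp hq
  have h2 : ∀ j, ∀ᶠ n in atTop, (p n).2 j = q.2 j := by
    intro j
    have h3 : Tendsto (fun n => (p n).2 j) atTop (𝓝 (q.2 j)) :=
      (((NN.continuous_apply j).comp continuous_snd).tendsto q).comp hq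
    rw [nhds_discrete, tendsto_pure] at h3
    exact h3
  refine ⟨?_, ?_, ?_, ?_⟩
  · intro i j hij
    obtain ⟨n, hn1, hn2⟩ := ((h2 i).and (h2 j)).exists
    rw [← hn1, ← hn2]
    exact (hp n).1 hij
  · intro j
    obtain ⟨n, hn⟩ := (h2 j).exists
    rw [← hn]
    exact (hp n).2.1 j
  · intro j
    obtain ⟨n, hn1, hn2⟩ := ((h2 j).and (h2 (q.2 j))).exists
    rw [← hn2]
    conv_lhs => rw [← hn1]
    rw [(hp n).2.2.1 j, hn1]
  · intro j
    have hcl : IsClosed (⋃ i ∈ Finset.range (q.2 j + 1),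
        {x : X | ‖x - d i‖ ≤ (1 / 2 : ℝ) ^ (q.2 j + 1)}) := by
      apply Set.Finite.isClosed_biUnion (Finset.finite_toSet _)
      intro i _
      exact isClosed_le (by fun_prop) continuous_const
    have hmem : q.1 ∈ ⋃ i ∈ Finset.range (q.2 j + 1),
        {x : X | ‖x - d i‖ ≤ (1 / 2 : ℝ) ^ (q.2 j + 1)} := by
      have h1 : Tendsto (fun n => (p n).1) atTop (𝓝 q.1) := (continuous_fst.tendsto q).comp hq
      refine hcl.mem_of_tendsto h1 ?_
      filter_upwards [h2 j] with n hn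
      obtain ⟨i, hi, hi'⟩ := (hp n).2.2.2 j
      rw [hn] at hi hi'
      simp only [mem_iUnion]
      exact ⟨i, Finset.mem_range.mpr (Nat.lt_succ_of_le hi), hi'⟩
    simp only [mem_iUnion] at hmem
    obtain ⟨i, hi, hi'⟩ := hmem
    exact ⟨i, Nat.lt_succ_iff.mp (Finset.mem_range.mp hi), hi'⟩

/-- the metric space with the small ball property -/
abbrev SbpSpace : Type _ := goodSet d

instance [CompleteSpace X] : CompleteSpace (SbpSpace d) :=
  (isClosed_goodSet d).completeSpace_coe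

theorem hasSmallBallProperty [Nonempty (SbpSpace d)] : HasSmallBallProperty (SbpSpace d) := by
  classical
  intro ε₀ hε₀
  obtain ⟨N, hN⟩ := exists_pow_lt_of_lt_one hε₀ (by norm_num : (1 / 2 : ℝ) < 1)
  let ι : Type := Σ l : ℕ, (Fin (N + l) → Fin (N + l + 1)) × Fin (N + l + 1)
  let C : ι → Set (SbpSpace d) := fun β =>
    {p | (∀ j : Fin (N + β.1), p.1.2 j = (β.2.1 j : ℕ)) ∧
      ‖p.1.1 - d β.2.2‖ ≤ (1 / 2 : ℝ) ^ (N + β.1 + 1)}
  let c : ι → SbpSpace d := fun β => if h : (C β).Nonempty then h.some else Classical.arbitrary _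
  let r : ι → ℝ := fun β => (1 / 2 : ℝ) ^ (N + β.1)
  have hcover : ∀ p : SbpSpace d, ∃ β, p ∈ Metric.closedBall (c β) (r β) := by
    intro p
    obtain ⟨hmono, hle, hidem, hnear⟩ := p.2
    obtain ⟨l, hl⟩ : ∃ l, p.1.2 N = N + l := ⟨p.1.2 N - N, by have := hle N; omega⟩
    obtain ⟨i, hi, hi'⟩ := hnear N
    rw [hl] at hi hi'
    have hval : ∀ j : Fin (N + l), p.1.2 j < N + l + 1 := by
      intro j
      have h1 : p.1.2 j ≤ p.1.2 (N + l) := hmono (le_of_lt j.2)
      have h2 : p.1.2 (N + l) = N + l := by rw [← hl, hidem]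
      omega
    let β : ι := ⟨l, (fun j => ⟨p.1.2 j, hval j⟩, ⟨i, Nat.lt_succ_of_le hi⟩)⟩
    have hpC : p ∈ C β := ⟨fun j => rfl, hi'⟩
    refine ⟨β, ?_⟩
    have hne : (C β).Nonempty := ⟨p, hpC⟩
    have hcβ : c β ∈ C β := by
      simp only [c, dif_pos hne]
      exact hne.some_mem
    rw [Metric.mem_closedBall, Subtype.dist_eq, Prod.dist_eq]
    apply max_le
    · rw [dist_eq_norm]
      have h1 : p.1.1 - (c β).1.1 = (p.1.1 - d i) - ((c β).1.1 - d i) := by abel
      rw [h1]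
      refine (norm_sub_le _ _).trans ?_
      have h2 : ‖(c β).1.1 - d i‖ ≤ (1 / 2 : ℝ) ^ (N + l + 1) := hcβ.2
      have h3 : r β = (1 / 2 : ℝ) ^ (N + l + 1) + (1 / 2 : ℝ) ^ (N + l + 1) := by
        change (1 / 2 : ℝ) ^ (N + l) = _
        rw [pow_succ]; ring
      rw [h3]
      exact add_le_add hi' h2
    · apply NN.dist_le_of_agree
      intro j hj
      have h1 := hcβ.1 ⟨j, hj⟩
      exact h1.symm
  have hinf : Infinite ι := by
    have hne : ∀ l : ℕ, Nonempty ((Fin (N + l) → Fin (N + l + 1)) × Fin (N + l + 1)) :=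
      fun l => inferInstance
    exact Infinite.of_injective (fun l : ℕ => (⟨l, (hne l).some⟩ : ι))
      (fun a b h => congrArg Sigma.fst h)
  obtain ⟨dι⟩ := nonempty_denumerable ι
  let e : ℕ ≃ ι := (@Denumerable.eqv _ dι).symm
  refine ⟨fun n => c (e n), fun n => r (e n), ?_, ?_, ?_⟩
  · rw [eq_univ_iff_forall]
    intro p
    obtain ⟨β, hβ⟩ := hcover p
    refine mem_iUnion.mpr ⟨e.symm β, ?_⟩
    simpa using hβ
  · intro n
    refine ⟨by positivity, lt_of_le_of_lt ?_ hN⟩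
    exact pow_le_pow_of_le_one (by norm_num) (by norm_num) (by omega)
  · have h1 : Tendsto (fun β : ι => β.1) cofinite atTop := by
      rw [tendsto_atTop]
      intro K
      rw [eventually_cofinite]
      apply Set.Finite.subset (Finset.finite_toSet
        ((Finset.range K).sigma fun l => (Finset.univ :
          Finset ((Fin (N + l) → Fin (N + l + 1)) × Fin (N + l + 1)))))
      intro β hβ
      have hβ' : β.1 < K := not_le.mp hβ
      simp [hβ']
    have h2 : Tendsto (fun l : ℕ => (1 / 2 : ℝ) ^ (N + l)) atTop (𝓝 0) := by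
      have h3 := (tendsto_pow_atTop_nhds_zero_of_lt_one (by norm_num : (0 : ℝ) ≤ 1 / 2)
        (by norm_num)).comp (tendsto_add_atTop_nat N)
      refine h3.congr fun l => ?_
      simp [add_comm]
    have h4 : Tendsto e atTop cofinite := by
      rw [← Nat.cofinite_eq_atTop]
      exact e.injective.tendsto_cofinite
    exact (h2.comp h1).comp h4

/-- Every vector of the ambient space is the difference of two first coordinates. -/
theorem exists_sub_eq [CompleteSpace X] (hd : DenseRange d) (u : X) :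
    ∃ p q : SbpSpace d, p.1.1 - q.1.1 = u := by
  classical
  -- points approximable infinitely often
  let O : ℕ → Set X := fun n => ⋃ l : {l : ℕ // n ≤ l}, ⋃ i : {i : ℕ // i ≤ l.1},
    Metric.ball (d i.1) ((1 / 2 : ℝ) ^ (l.1 + 1))
  have hOopen : ∀ n, IsOpen (O n) := fun n =>
    isOpen_iUnion fun l => isOpen_iUnion fun i => Metric.isOpen_ball
  have hOdense : ∀ n, Dense (O n) := by
    intro n
    apply hd.mono
    rintro _ ⟨i, rfl⟩
    refine mem_iUnion.mpr ⟨⟨max n i, le_max_left _ _⟩, mem_iUnion.mpr ⟨⟨i, le_max_right _ _⟩, ?_⟩⟩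
    exact Metric.mem_ball_self (by positivity)
  have hdense : Dense ((⋂ n, O n) ∩ ⋂ n, (fun x => x - u) ⁻¹' (O n)) := by
    apply Dense.inter_of_Gδ
    · exact IsGδ.iInter_of_isOpen hOopen
    · exact IsGδ.iInter_of_isOpen fun n => (hOopen n).preimage (by fun_prop)
    · exact dense_iInter_of_isOpen hOopen hOdense
    · refine dense_iInter_of_isOpen (fun n => (hOopen n).preimage (by fun_prop)) fun n => ?_
      exact (hOdense n).preimage (Homeomorph.subRight u).isOpenMap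
  obtain ⟨x, hx1, hx2⟩ := hdense.nonempty
  -- from a point approximable infinitely often we get a point of the space
  have hmk : ∀ y : X, (∀ n, y ∈ O n) → ∃ p : SbpSpace d, p.1.1 = y := by
    intro y hy
    have hex : ∀ j : ℕ, ∃ l, j ≤ l ∧ ∃ i ≤ l, ‖y - d i‖ ≤ (1 / 2 : ℝ) ^ (l + 1) := by
      intro j
      obtain ⟨l, hl⟩ := mem_iUnion.mp (hy j)
      obtain ⟨i, hi⟩ := mem_iUnion.mp hl
      refine ⟨l.1, l.2, i.1, i.2, ?_⟩
      rw [Metric.mem_ball, dist_eq_norm] at hi
      exact hi.le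
    let γ : ℕ → ℕ := fun j => Nat.find (hex j)
    have hγ : ∀ j, j ≤ γ j ∧ ∃ i ≤ γ j, ‖y - d i‖ ≤ (1 / 2 : ℝ) ^ (γ j + 1) :=
      fun j => Nat.find_spec (hex j)
    have hγmin : ∀ j l, j ≤ l → (∃ i ≤ l, ‖y - d i‖ ≤ (1 / 2 : ℝ) ^ (l + 1)) → γ j ≤ l :=
      fun j l h1 h2 => Nat.find_min' (hex j) ⟨h1, h2⟩
    refine ⟨⟨(y, γ), ?_, ?_, ?_, ?_⟩, rfl⟩
    · intro i j hij
      exact hγmin i (γ j) (hij.trans (hγ j).1) (hγ j).2
    · exact fun j => (hγ j).1
    · intro j
      exact le_antisymm (hγmin (γ j) (γ j) le_rfl (hγ j).2) (hγ (γ j)).1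
    · exact fun j => (hγ j).2
  obtain ⟨p, hp⟩ := hmk x (fun n => mem_iInter.mp hx1 n)
  obtain ⟨q, hq⟩ := hmk (x - u) (fun n => mem_iInter.mp hx2 n)
  exact ⟨p, q, by rw [hp, hq]; abel⟩

theorem dist_eq_of_norm {p q : SbpSpace d} (h : 1 ≤ ‖p.1.1 - q.1.1‖) :
    dist p q = ‖p.1.1 - q.1.1‖ := by
  rw [Subtype.dist_eq, Prod.dist_eq, dist_eq_norm]
  exact max_eq_left ((NN.dist_le_one _ _).trans h)

theorem norm_sub_le_dist (p q : SbpSpace d) : ‖p.1.1 - q.1.1‖ ≤ dist p q := by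
  rw [Subtype.dist_eq, Prod.dist_eq, dist_eq_norm]
  exact le_max_left _ _

end Space

end Pool.Agent.Helper74
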