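import Mathlib

set_option autoImplicit false

open Filter Topology

namespace Pool.Agent.Helper74

/-- `u` is a Schauder basis of `E` (over `𝕜`): every vector of `E` has a unique norm convergent
expansion along `u`. -/
def IsSchauderBasis (𝕜 : Type*) {E : Type*} [RCLike 𝕜] [NormedAddCommGroup E] [NormedSpace 𝕜 E]
    (u : ℕ → E) : Prop :=
  ∀ x : E, ∃! a : ℕ → 𝕜, Tendsto (fun n => ∑ k ∈ Finset.range n, a k • u k) atTop (𝓝 x)

section Banach

variable {𝕜 E : Type*} [RCLike 𝕜] [NormedAddCommGroup E] [NormedSpace 𝕜 E]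

/-- coefficients of a vector with respect to a Schauder basis -/
noncomputable def coef {u : ℕ → E} (hu : IsSchauderBasis 𝕜 u) (x : E) : ℕ → 𝕜 :=
  (hu x).choose

theorem coef_spec {u : ℕ → E} (hu : IsSchauderBasis 𝕜 u) (x : E) :
    Tendsto (fun n => ∑ k ∈ Finset.range n, coef hu x k • u k) atTop (𝓝 x) :=
  (hu x).choose_spec.1

theorem coef_unique {u : ℕ → E} (hu : IsSchauderBasis 𝕜 u) {x : E} {a : ℕ → 𝕜}
    (ha : Tendsto (fun n => ∑ k ∈ Finset.range n, a k • u k) atTop (𝓝 x)) : a = coef hu x :=
  (hu x).choose_spec.2 a ha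

theorem coef_add {u : ℕ → E} (hu : IsSchauderBasis 𝕜 u) (x y : E) :
    coef hu (x + y) = coef hu x + coef hu y := by
  symm
  apply coef_unique hu
  have := (coef_spec hu x).add (coef_spec hu y)
  refine this.congr fun n => ?_
  simp [add_smul, Finset.sum_add_distrib]

theorem coef_smul {u : ℕ → E} (hu : IsSchauderBasis 𝕜 u) (c : 𝕜) (x : E) :
    coef hu (c • x) = c • coef hu x := by
  symm
  apply coef_unique hu
  have := (coef_spec hu x).const_smul c
  refine this.congr fun n => ?_
  simp [Finset.smul_sum, smul_smul]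

theorem coef_basis {u : ℕ → E} (hu : IsSchauderBasis 𝕜 u) (m : ℕ) :
    coef hu (u m) = Pi.single m 1 := by
  symm
  apply coef_unique hu
  refine tendsto_const_nhds.congr' ?_
  filter_upwards [eventually_gt_atTop m] with n hn
  rw [Finset.sum_eq_single m]
  · simp
  · intro b _ hb
    simp [hb]
  · intro h
    exact absurd (Finset.mem_range.mpr hn) h

theorem exists_bound_partialSum {u : ℕ → E} (hu : IsSchauderBasis 𝕜 u) (x : E) :
    ∃ C, ∀ n, ‖∑ k ∈ Finset.range n, coef hu x k • u k‖ ≤ C := by
  obtain ⟨M, hM⟩ := isBounded_iff_forall_norm_le.mp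
    (Metric.isBounded_range_of_tendsto _ (coef_spec hu x))
  exact ⟨M, Set.forall_mem_range.mp hM⟩

/-- The map sending `x` to its sequence of partial sums. -/
noncomputable def partialSumMap {u : ℕ → E} (hu : IsSchauderBasis 𝕜 u) :
    E →ₗ[𝕜] BoundedContinuousFunction ℕ E where
  toFun x := BoundedContinuousFunction.ofNormedAddCommGroupDiscrete
    (fun n => ∑ k ∈ Finset.range n, coef hu x k • u k)
    (exists_bound_partialSum hu x).choose (exists_bound_partialSum hu x).choose_spec
  map_add' x y := by
    ext n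
    simp [coef_add, add_smul, Finset.sum_add_distrib]
  map_smul' c x := by
    ext n
    simp [coef_smul, smul_smul, Finset.smul_sum]

@[simp]
theorem partialSumMap_apply {u : ℕ → E} (hu : IsSchauderBasis 𝕜 u) (x : E) (n : ℕ) :
    partialSumMap hu x n = ∑ k ∈ Finset.range n, coef hu x k • u k := rfl

theorem partialSumMap_continuous [CompleteSpace E] {u : ℕ → E} (hu : IsSchauderBasis 𝕜 u) :
    Continuous (partialSumMap hu) := by
  apply LinearMap.continuous_of_seq_closed_graph
  intro v x g hv hg
  have hpt : ∀ n, Tendsto (fun k => partialSumMap hu (v k) n) atTop (𝓝 (g n)) := by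
    intro n
    exact ((BoundedContinuousFunction.lipschitz_eval_const n).continuous.tendsto g).comp hg
  -- increments of `g` lie in the lines `𝕜 u n`
  have hinc : ∀ n, ∃ c : 𝕜, g (n + 1) - g n = c • u n := by
    intro n
    have hcl : IsClosed ((Submodule.span 𝕜 {u n} : Submodule 𝕜 E) : Set E) :=
      Submodule.closed_of_finiteDimensional _
    have hmem : g (n + 1) - g n ∈ (Submodule.span 𝕜 {u n} : Submodule 𝕜 E) := by
      refine hcl.mem_of_tendsto ((hpt (n + 1)).sub (hpt n)) (Eventually.of_forall fun k => ?_)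
      simp only [partialSumMap_apply, Finset.sum_range_succ, add_sub_cancel_left]
      exact Submodule.smul_mem _ _ (Submodule.mem_span_singleton_self _)
    obtain ⟨c, hc⟩ := Submodule.mem_span_singleton.mp hmem
    exact ⟨c, hc.symm⟩
  choose c hc using hinc
  have hg0 : g 0 = 0 := by
    refine tendsto_nhds_unique (hpt 0) ?_
    simp
  have hgsum : ∀ n, g n = ∑ k ∈ Finset.range n, c k • u k := by
    intro n
    induction n with
    | zero => simp [hg0]
    | succ n ih => rw [Finset.sum_range_succ, ← ih, ← hc n]; abel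
  have hlim : Tendsto (fun n => g n) atTop (𝓝 x) := by
    rw [Metric.tendsto_atTop]
    intro ε hε
    have h1 : ∀ᶠ k in atTop, dist (partialSumMap hu (v k)) g < ε / 3 := by
      exact (Metric.tendsto_nhds.mp hg) _ (by positivity)
    have h2 : ∀ᶠ k in atTop, dist (v k) x < ε / 3 :=
      (Metric.tendsto_nhds.mp hv) _ (by positivity)
    obtain ⟨k, hk1, hk2⟩ := (h1.and h2).exists
    obtain ⟨N, hN⟩ := (Metric.tendsto_atTop.mp (coef_spec hu (v k))) (ε / 3) (by positivity)
    refine ⟨N, fun n hn => ?_⟩
    calc dist (g n) x ≤ dist (g n) (partialSumMap hu (v k) n)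
          + dist (partialSumMap hu (v k) n) (v k) + dist (v k) x := dist_triangle4 _ _ _ _
      _ < ε / 3 + ε / 3 + ε / 3 := by
          have h3 := BoundedContinuousFunction.dist_coe_le_dist (f := g)
            (g := partialSumMap hu (v k)) n
          have h4 := hN n hn
          rw [dist_comm] at hk1
          have h5 : dist (partialSumMap hu (v k) n) (v k) < ε / 3 := h4
          linarith
      _ = ε := by ring
  have hceq : c = coef hu x := coef_unique hu (hlim.congr fun n => hgsum n)
  ext n
  rw [hgsum n, hceq]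
  rfl

/-- Banach's theorem: the partial sum operators of a Schauder basis of a Banach space are
uniformly bounded. -/
theorem exists_partialSum_operators [CompleteSpace E] {u : ℕ → E} (hu : IsSchauderBasis 𝕜 u) :
    ∃ (K : ℝ) (S : ℕ → (E →L[𝕜] E)), (∀ n x, ‖S n x‖ ≤ K * ‖x‖) ∧
      ∀ n m, S n (u m) = if m < n then u m else 0 := by
  let T : E →L[𝕜] BoundedContinuousFunction ℕ E :=
    ⟨partialSumMap hu, partialSumMap_continuous hu⟩
  have hT : ∀ n x, ‖partialSumMap hu x n‖ ≤ ‖T‖ * ‖x‖ := by
    intro n x
    exact (BoundedContinuousFunction.norm_coe_le_norm _ n).trans (T.le_opNorm x)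
  let S : ℕ → (E →L[𝕜] E) := fun n => LinearMap.mkContinuous
    { toFun := fun x => partialSumMap hu x n
      map_add' := by intro x y; rw [map_add]; rfl
      map_smul' := by intro c x; rw [map_smul]; rfl } ‖T‖ (fun x => hT n x)
  refine ⟨‖T‖, S, fun n x => hT n x, ?_⟩
  intro n m
  change partialSumMap hu (u m) n = _
  rw [partialSumMap_apply, coef_basis]
  split_ifs with h
  · rw [Finset.sum_eq_single m]
    · simp
    · intro b _ hb
      simp [hb]
    · intro h'
      exact absurd (Finset.mem_range.mpr h) h'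
  · apply Finset.sum_eq_zero
    intro b hb
    have : b ≠ m := by
      rintro rfl
      exact h (Finset.mem_range.mp hb)
    simp [this]

end Banach

end Pool.Agent.Helper74
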