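import Pool.Agent.Helper74.LipSpaceDefs
import Pool.Agent.Helper74.PolyDefs

set_option autoImplicit false

namespace Pool.Agent.Helper74

/-- `Y` is isomorphically polyhedral: it is isomorphic to a polyhedral Banach space. -/
def IsIsomorphicallyPolyhedral (Y : Type) [NormedAddCommGroup Y] [NormedSpace ℝ Y] : Prop :=
  ∃ (Z : Type) (_ : NormedAddCommGroup Z) (_ : NormedSpace ℝ Z) (_ : CompleteSpace Z),
    IsPolyhedral Z ∧ Nonempty (Y ≃L[ℝ] Z)

/-- The subset `S` of the normed space `L` contains a closed linear subspace of `L` which is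
isometric to `ℓ_2` and not isomorphic to any polyhedral Banach space. -/
def ContainsNonPolyhedralSubspace {L : Type} [NormedAddCommGroup L] [NormedSpace ℝ L]
    (S : Set L) : Prop :=
  ∃ Y : Submodule ℝ L, IsClosed (Y : Set L) ∧ (∀ f ∈ Y, f ∈ S) ∧
    Nonempty (lp (fun _ : ℕ => ℝ) 2 ≃ₗᵢ[ℝ] Y) ∧ ¬ IsIsomorphicallyPolyhedral Y

/-- The set `SNA(M)` of the strongly norm attaining functions in `Lip₀(M)`. -/
def SNA (M : Type*) [MetricSpace M] (o : M) : Set (Lip0 M o) := {f | StronglyAttains f}

end Pool.Agent.Helper74
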